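import Pool.Agent.Helper87K9.PL.Defs

set_option autoImplicit false

/-!
# The form `T(p, x; y)` is alternating on the small numbers [ALT]
-/

namespace Pool.Agent.Helper87K9.PL

section basic

variable {p : ℕ}

theorem Sm.ne {x : ℚ} (h : Sm p x) : x ≠ 0 := by
  induction h with
  | int s h h' => exact_mod_cast h
  | mul _ _ h1 h2 => exact mul_ne_zero h1 h2
  | inv _ h1 => exact inv_ne_zero h1

theorem Sm.nat {n : ℕ} (h0 : 0 < n) (h : n < p) : Sm p (n : ℚ) := by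
  have := Sm.int (p := p) (n : ℤ) (by omega) (by rw [abs_of_nonneg (by omega)]; omega)
  exact_mod_cast this

theorem Sm.div {x y : ℚ} (hx : Sm p x) (hy : Sm p y) : Sm p (x / y) := by
  rw [div_eq_mul_inv]
  exact hx.mul hy.inv

/-- Induction over the small numbers for additive functions. -/
theorem Sm.ind (f : ℚ → ℚ) (hm : ∀ x y, x ≠ 0 → y ≠ 0 → f (x * y) = f x + f y)
    (hi : ∀ x, x ≠ 0 → f x⁻¹ = - f x) (hn : ∀ x, x ≠ 0 → f (-x) = f x)
    (h0 : ∀ n : ℕ, 0 < n → n < p → f n = 0) : ∀ x, Sm p x → f x = 0 := by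
  intro x hx
  induction hx with
  | int s h h' =>
    obtain ⟨n, hn'⟩ : ∃ n, n = s.natAbs := ⟨_, rfl⟩
    have hnpos : 0 < n := by rw [hn']; exact Int.natAbs_pos.2 h
    have h1 := h0 n hnpos (by
      have : (s.natAbs : ℤ) < p := by rw [Int.natCast_natAbs]; exact h'
      rw [hn']
      exact_mod_cast this)
    rcases Int.natAbs_eq s with h2 | h2
    · rw [← hn'] at h2
      rw [h2, Int.cast_natCast]
      exact h1
    · rw [← hn'] at h2
      rw [h2, Int.cast_neg, Int.cast_natCast, hn _ (by positivity)]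
      exact h1
  | mul hx hy h1 h2 => rw [hm _ _ hx.ne hy.ne, h1, h2, add_zero]
  | inv hx h1 => rw [hi _ hx.ne, h1, neg_zero]

end basic

variable (hB : S_BAS) {T : ℚ → ℚ → ℚ → ℚ} {p : ℕ} (hT : Sym T)

include hT in
theorem Sym.mul₂ (a b b' c : ℚ) (ha : a ≠ 0) (hb : b ≠ 0) (hb' : b' ≠ 0) (hc : c ≠ 0) :
    T a (b * b') c = T a b c + T a b' c := by
  rw [hT.symm, hT.mul₁ b b' a c hb hb' ha hc, hT.symm b a c, hT.symm b' a c]

include hB hT

theorem inv₁ {a b c : ℚ} (ha : a ≠ 0) (hb : b ≠ 0) (hc : c ≠ 0) : T a⁻¹ b c = - T a b c :=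
  ((hB T hT).2.1 a b c ha hb hc).1

theorem inv₃ {a b c : ℚ} (ha : a ≠ 0) (hb : b ≠ 0) (hc : c ≠ 0) : T a b c⁻¹ = - T a b c :=
  ((hB T hT).2.1 a b c ha hb hc).2.1

theorem neg₁ {a b c : ℚ} (ha : a ≠ 0) (hb : b ≠ 0) (hc : c ≠ 0) : T (-a) b c = T a b c :=
  ((hB T hT).2.1 a b c ha hb hc).2.2.1

theorem neg₃ {a b c : ℚ} (ha : a ≠ 0) (hb : b ≠ 0) (hc : c ≠ 0) : T a b (-c) = T a b c :=
  ((hB T hT).2.1 a b c ha hb hc).2.2.2

theorem inv₂ {a b c : ℚ} (ha : a ≠ 0) (hb : b ≠ 0) (hc : c ≠ 0) : T a b⁻¹ c = - T a b c := by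
  rw [hT.symm, inv₁ hB hT hb ha hc, hT.symm]

theorem neg₂ {a b c : ℚ} (ha : a ≠ 0) (hb : b ≠ 0) (hc : c ≠ 0) : T a (-b) c = T a b c := by
  rw [hT.symm, neg₁ hB hT hb ha hc, hT.symm]

/-- `T` vanishes on the small numbers. -/
theorem van_Sm (hV : Van T p) {a b c : ℚ} (ha : Sm p a) (hb : Sm p b) (hc : Sm p c) :
    T a b c = 0 := by
  refine Sm.ind (fun a => T a b c) (fun x y hx hy => hT.mul₁ _ _ _ _ hx hy hb.ne hc.ne)
    (fun x hx => inv₁ hB hT hx hb.ne hc.ne) (fun x hx => neg₁ hB hT hx hb.ne hc.ne) ?_ a ha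
  intro n hn hnp
  have hn' : (n : ℚ) ≠ 0 := by positivity
  refine Sm.ind (fun b => T n b c) (fun x y hx hy => hT.mul₂ _ _ _ _ hn' hx hy hc.ne)
    (fun x hx => inv₂ hB hT hn' hx hc.ne) (fun x hx => neg₂ hB hT hn' hx hc.ne) ?_ b hb
  intro m hm hmp
  have hm' : (m : ℚ) ≠ 0 := by positivity
  refine Sm.ind (fun c => T n m c) (fun x y hx hy => hT.mul₃ _ _ _ _ hn' hm' hx hy)
    (fun x hx => inv₃ hB hT hn' hm' hx) (fun x hx => neg₃ hB hT hn' hm' hx) ?_ c hc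
  intro l hl hlp
  exact hV n m l hn hnp hm hmp hl hlp

/-- If `w`, `θ` are small and `1 - w = p θ`, then `T(p, w; w) = 0`. -/
theorem T_p_w_w (hp : p.Prime) (hV : Van T p) {w θ : ℚ} (hw : Sm p w) (hθ : Sm p θ)
    (h : 1 - w = p * θ) : T p w w = 0 := by
  have hp0 : (p : ℚ) ≠ 0 := by exact_mod_cast hp.ne_zero
  have hw1 : w ≠ 1 := by
    rintro rfl
    rw [sub_self] at h
    exact mul_ne_zero hp0 hθ.ne h.symm
  have h1 := hT.sym w hw.ne hw1
  rw [h, hT.mul₃ _ _ _ _ hw.ne hw.ne hp0 hθ.ne, van_Sm hB hT hV hw hw hθ, add_zero] at h1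
  have h2 := (hB T hT).2.2.2.1 w p hw.ne hp0
  rw [h1, zero_add] at h2
  rw [hT.symm]
  linarith

/-- The value of the form at a product of quotients. -/
theorem T_quad {a x₁ x₂ x₃ x₄ : ℚ} (ha : a ≠ 0) (h1 : x₁ ≠ 0) (h2 : x₂ ≠ 0) (h3 : x₃ ≠ 0)
    (h4 : x₄ ≠ 0) {y : ℚ} (hy : y ≠ 0) :
    T a (x₁ * x₂ / (x₃ * x₄)) y = T a x₁ y + T a x₂ y - T a x₃ y - T a x₄ y := by
  rw [div_eq_mul_inv, hT.mul₂ _ _ _ _ ha (mul_ne_zero h1 h2) (inv_ne_zero (mul_ne_zero h3 h4)) hy,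
    hT.mul₂ _ _ _ _ ha h1 h2 hy, inv₂ hB hT ha (mul_ne_zero h3 h4) hy,
    hT.mul₂ _ _ _ _ ha h3 h4 hy]
  ring

theorem T_quad₃ {a x₁ x₂ x₃ x₄ : ℚ} (ha : a ≠ 0) (h1 : x₁ ≠ 0) (h2 : x₂ ≠ 0) (h3 : x₃ ≠ 0)
    (h4 : x₄ ≠ 0) {y : ℚ} (hy : y ≠ 0) :
    T a y (x₁ * x₂ / (x₃ * x₄)) = T a y x₁ + T a y x₂ - T a y x₃ - T a y x₄ := by
  rw [div_eq_mul_inv, hT.mul₃ _ _ _ _ ha hy (mul_ne_zero h1 h2) (inv_ne_zero (mul_ne_zero h3 h4)),
    hT.mul₃ _ _ _ _ ha hy h1 h2, inv₃ hB hT ha hy (mul_ne_zero h3 h4),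
    hT.mul₃ _ _ _ _ ha hy h3 h4]
  ring

/-- The alternating property on positive integers `< p`. -/
theorem alt_nat (hC : S_CYC) (hp : p.Prime) (hV : Van T p) (a b : ℕ) (ha : 0 < a) (hap : a < p)
    (hb : 0 < b) (hbp : b < p) : T p a b + T p b a = 0 := by
  have : Fact p.Prime := ⟨hp⟩
  have hp0 : (p : ℚ) ≠ 0 := by exact_mod_cast hp.ne_zero
  let X : (ZMod p)ˣ → ℕ := fun x => (x : ZMod p).val
  have hX0 : ∀ x, 0 < X x := by
    intro x
    refine Nat.pos_of_ne_zero fun h => x.ne_zero ?_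
    exact (ZMod.val_eq_zero _).1 h
  have hXp : ∀ x, X x < p := fun x => ZMod.val_lt _
  have hXq : ∀ x, (X x : ℚ) ≠ 0 := fun x => by
    have := hX0 x
    positivity
  have hXm : ∀ x, ((X x : ℕ) : ZMod p) = x := fun x => ZMod.natCast_zmod_val _
  have hX1 : X 1 = 1 := by
    simp only [X, Units.val_one]
    exact ZMod.val_one p
  have key := hC (ZMod p)ˣ (fun x y => T p (X x) (X y) + T p (X y) (X x))
    (fun x y => add_comm _ _) (fun x => ?_) ?_
  · -- conclusion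
    have hu : ∀ n : ℕ, 0 < n → n < p → ∃ u : (ZMod p)ˣ, X u = n := by
      intro n hn hnp
      have hc : Nat.Coprime n p := (hp.coprime_iff_not_dvd.2
        (fun h => absurd (Nat.le_of_dvd hn h) (by omega))).symm
      refine ⟨ZMod.unitOfCoprime n hc, ?_⟩
      simp only [X, ZMod.coe_unitOfCoprime]
      exact ZMod.val_natCast_of_lt hnp
    obtain ⟨u, hu1⟩ := hu a ha hap
    obtain ⟨v, hv1⟩ := hu b hb hbp
    have := key u v
    simp only [hu1, hv1] at this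
    exact this
  · have h1 := ((hB T hT).1 p (X x) hp0 (hXq x)).1
    have h2 := ((hB T hT).1 p (X x) hp0 (hXq x)).2.2.1
    rw [hX1]
    simp only [Nat.cast_one]
    rw [hT.symm p 1, h1, h2, add_zero]
  · intro x₁ x₂ x₃ x₄ hx
    obtain ⟨w, hw⟩ : ∃ w : ℚ, w = (X x₁ * X x₂) / (X x₃ * X x₄) := ⟨_, rfl⟩
    have hwS : Sm p w := by
      rw [hw]
      exact ((Sm.nat (hX0 _) (hXp _)).mul (Sm.nat (hX0 _) (hXp _))).div
        ((Sm.nat (hX0 _) (hXp _)).mul (Sm.nat (hX0 _) (hXp _)))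
    have hww : T p w w = 0 := by
      by_cases hw1 : w = 1
      · rw [hw1]
        exact ((hB T hT).1 p 1 hp0 one_ne_zero).2.2.1
      · -- `1 - w = p s / (x₃ x₄)`
        have hdvd : (p : ℤ) ∣ (X x₃ * X x₄ : ℤ) - X x₁ * X x₂ := by
          rw [← ZMod.intCast_zmod_eq_zero_iff_dvd]
          push_cast
          rw [hXm, hXm, hXm, hXm, ← Units.val_mul, ← Units.val_mul, hx, sub_self]
        obtain ⟨s, hs⟩ := hdvd
        have hs' : (X x₃ * X x₄ : ℚ) - X x₁ * X x₂ = p * s := by exact_mod_cast hs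
        have h34 : (X x₃ * X x₄ : ℚ) ≠ 0 := mul_ne_zero (hXq _) (hXq _)
        have h1w : 1 - w = p * (s / (X x₃ * X x₄)) := by
          rw [hw, ← mul_div_assoc, ← hs', sub_div, div_self h34]
        have hs0 : s ≠ 0 := by
          rintro rfl
          apply hw1
          rw [Int.cast_zero, zero_div, mul_zero] at h1w
          linarith
        have hsp : |s| < p := by
          have a1 := hXp x₁
          have a2 := hXp x₂
          have a3 := hXp x₃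
          have a4 := hXp x₄
          have b1 := hX0 x₁
          have b2 := hX0 x₂
          have b3 := hX0 x₃
          have b4 := hX0 x₄
          have c1 : (X x₁ * X x₂ : ℤ) < p * p := by
            exact_mod_cast Nat.mul_lt_mul'' a1 a2
          have c2 : (X x₃ * X x₄ : ℤ) < p * p := by
            exact_mod_cast Nat.mul_lt_mul'' a3 a4
          have c3 : (0 : ℤ) < X x₁ * X x₂ := by exact_mod_cast Nat.mul_pos b1 b2
          have c4 : (0 : ℤ) < X x₃ * X x₄ := by exact_mod_cast Nat.mul_pos b3 b4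
          have c5 : (0 : ℤ) < p := by exact_mod_cast hp.pos
          rw [abs_lt]
          constructor
          · by_contra hcon
            push Not at hcon
            nlinarith
          · by_contra hcon
            push Not at hcon
            nlinarith
        refine T_p_w_w hB hT hp hV hwS ?_ h1w
        exact (Sm.int s hs0 hsp).div ((Sm.nat (hX0 _) (hXp _)).mul (Sm.nat (hX0 _) (hXp _)))
    have hw0 := hwS.ne
    rw [hw, T_quad hB hT hp0 (hXq _) (hXq _) (hXq _) (hXq _) (hw ▸ hw0),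
      T_quad₃ hB hT hp0 (hXq _) (hXq _) (hXq _) (hXq _) (hXq _),
      T_quad₃ hB hT hp0 (hXq _) (hXq _) (hXq _) (hXq _) (hXq _),
      T_quad₃ hB hT hp0 (hXq _) (hXq _) (hXq _) (hXq _) (hXq _),
      T_quad₃ hB hT hp0 (hXq _) (hXq _) (hXq _) (hXq _) (hXq _)] at hww
    unfold qf
    linear_combination 2 * hww

omit hB hT in
/-- [ALT] -/
theorem alt (hB : S_BAS) (hC : S_CYC) : S_ALT := by
  intro T p hT hp hV x y hx hy
  have hp0 : (p : ℚ) ≠ 0 := by exact_mod_cast hp.ne_zero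
  refine Sm.ind (fun x => T p x y + T p y x) ?_ ?_ ?_ ?_ x hx
  · intro a b ha hb
    rw [hT.mul₂ _ _ _ _ hp0 ha hb hy.ne, hT.mul₃ _ _ _ _ hp0 hy.ne ha hb]
    ring
  · intro a ha
    rw [inv₂ hB hT hp0 ha hy.ne, inv₃ hB hT hp0 hy.ne ha]
    ring
  · intro a ha
    rw [neg₂ hB hT hp0 ha hy.ne, neg₃ hB hT hp0 hy.ne ha]
  · intro n hn hnp
    have hn' : (n : ℚ) ≠ 0 := by positivity
    refine Sm.ind (fun y => T p n y + T p y n) ?_ ?_ ?_ ?_ y hy
    · intro a b ha hb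
      rw [hT.mul₃ _ _ _ _ hp0 hn' ha hb, hT.mul₂ _ _ _ _ hp0 ha hb hn']
      ring
    · intro a ha
      rw [inv₂ hB hT hp0 ha hn', inv₃ hB hT hp0 hn' ha]
      ring
    · intro a ha
      rw [neg₂ hB hT hp0 ha hn', neg₃ hB hT hp0 hn' ha]
    · intro m hm hmp
      exact alt_nat hB hT hC hp hV n m hn hnp hm hmp

end Pool.Agent.Helper87K9.PL
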