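import Pool.Agent.H39R2.Gon.Defs

set_option autoImplicit false

/-!
# The last two differentials of Goncharov's complexes `Γ(F,n) ⊗ ℚ`

The groups `B_n(F)`, the terms `TQ F m j = (B_m(F) ⊗ Λ^j F^*) ⊗ ℚ`, `LQ F j = Λ^j F^* ⊗ ℚ` and their
elements `tq`, `lq` are those of `Pool/Agent/H39R2/Gon/Defs.lean`.
-/

namespace Pool.Agent.Helper87K9.PL

open H39Gon
open scoped TensorProduct

/-- `e` is the last differential `(B_2(F) ⊗ Λ^j F^*)_ℚ → (Λ^{j+2} F^*)_ℚ` of `Γ(F, j + 2) ⊗ ℚ`,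
`{x}_2 ⊗ y ↦ (1 - x) ∧ x ∧ y`. -/
def IsLast {F : Type} [Field F] (j : ℕ) (e : TQ F 2 j →ₗ[ℚ] LQ F (j + 2)) : Prop :=
  (∀ y, e (tq F 2 j none y) = 0) ∧ (∀ y, e (tq F 2 j (some 0) y) = 0) ∧
  (∀ y, e (tq F 2 j (some 1) y) = 0) ∧
  ∀ (x : F) y, x ≠ 0 → x ≠ 1 →
    e (tq F 2 j (some x) y) = lq F (j + 2) (Fin.cons (cl (1 - x)) (Fin.cons (cl x) y))

/-- `d` is the last but one differential `(B_3(F) ⊗ Λ^j F^*)_ℚ → (B_2(F) ⊗ Λ^{j+1} F^*)_ℚ` of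
`Γ(F, j + 3) ⊗ ℚ`, `{x}_3 ⊗ y ↦ {x}_2 ⊗ x ∧ y`. -/
def IsLastButOne {F : Type} [Field F] (j : ℕ) (d : TQ F 3 j →ₗ[ℚ] TQ F 2 (j + 1)) : Prop :=
  (∀ y, d (tq F 3 j none y) = 0) ∧ (∀ y, d (tq F 3 j (some 0) y) = 0) ∧
  ∀ (x : F) y, x ≠ 0 → d (tq F 3 j (some x) y) = tq F 2 (j + 1) (some x) (Fin.cons (cl x) y)

/-- The image of the last but one differential of `Γ(F, j + 3) ⊗ ℚ`: the subspace of
`(B_2(F) ⊗ Λ^{j+1} F^*)_ℚ` spanned by the elements `{x}_2 ⊗ x ∧ y_1 ∧ ... ∧ y_j`. -/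
noncomputable def ImLast (F : Type) [Field F] (j : ℕ) : Submodule ℚ (TQ F 2 (j + 1)) :=
  Submodule.span ℚ {u | ∃ (x : F) (y : Fin j → UV F), x ≠ 0 ∧
    u = tq F 2 (j + 1) (some x) (Fin.cons (cl x) y)}

/-- The subspace of `(B_2(F) ⊗ Λ^j F^*)_ℚ` spanned by the `β ⊗ y_1 ∧ ... ∧ y_j`, `β` in the Bloch
group `ker (δ_2 : B_2(F) → Λ^2 F^*)`. -/
noncomputable def BlochPart (F : Type) [Field F] (j : ℕ) : Submodule ℚ (TQ F 2 j) :=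
  Submodule.span ℚ {u | ∃ (α : ZP F) (y : Fin j → UV F), delta2 F α = 0 ∧
    u = (1 : ℚ) ⊗ₜ[ℤ] ((R 2 F).mkQ α ⊗ₜ[ℤ] exteriorPower.ιMulti ℤ j y)}

/-- The Bloch group `ker (δ_2 : B_2(F) → Λ^2 F^*)` is torsion (`H^1(Γ(F,2) ⊗ ℚ) = 0`). -/
def BlochTorsion (F : Type) [Field F] : Prop :=
  ∀ α : ZP F, delta2 F α = 0 → ∃ N : ℕ, 0 < N ∧ N • (R 2 F).mkQ α = 0

end Pool.Agent.Helper87K9.PL
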