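import Pool.Agent.H39R2.Gon.E1
import Pool.Agent.H39R2.Gon.E2
import Pool.Agent.Helper87K9.PL.Cx

set_option autoImplicit false

/-!
# Degree `n - 1` of the complexes `Γ(F,n) ⊗ ℚ` from the weight 3 spanning statement
-/

namespace Pool.Agent.Helper87K9.PL

open H39Gon H39Gon.E2 H39Gon.C4
open scoped TensorProduct

section
variable {F : Type} [Field F]

/-- a functional on `(B_2 ⊗ Λ^j)_ℚ` killing the Bloch part is given by an alternating form -/
theorem exists_form (j : ℕ) (φ : TQ F 2 j →ₗ[ℚ] ℚ) (hφ : ∀ u ∈ BlochPart F j, φ u = 0) :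
    ∃ Q : UV F →ₗ[ℤ] (UV F →ₗ[ℤ] (UV F [⋀^Fin j]→ₗ[ℤ] ℚ)),
      (∀ s, Q s s = 0) ∧ (∀ y, φ (tq F 2 j none y) = 0) ∧
      ∀ x y, φ (tq F 2 j (some x) y) = Q (cl x) (cl (1 - x)) y := by
  have h1 : ∀ α : ZP F, delta2 F α = 0 → toTheta φ α = 0 := by
    intro α hα
    ext y
    exact hφ _ (Submodule.subset_span ⟨α, y, hα, rfl⟩)
  obtain ⟨L, hL⟩ := exists_ext (delta2 F) (toTheta φ) h1
  have e0 : ∀ x a v : UV F, ![x, a] = Function.update ![v, a] 0 x := fun x a v => by
    funext i; fin_cases i <;> rfl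
  have e1 : ∀ x a v : UV F, ![v, x] = Function.update ![v, a] 1 x := fun x a v => by
    funext i; fin_cases i <;> rfl
  refine ⟨LinearMap.mk₂ ℤ (fun s v => L (exteriorPower.ιMulti ℤ 2 ![v, s])) ?_ ?_ ?_ ?_, ?_, ?_, ?_⟩
  · intro a b v
    rw [← map_add, e1 (a + b) a v, AlternatingMap.map_update_add, ← e1, ← e1]
  · intro c a v
    have h := (exteriorPower.ιMulti ℤ (M := UV F) 2).map_update_smul ![v, a] 1 c a
    rw [← e1, ← e1] at h
    rw [h, LinearMap.map_smul]
  · intro a v w
    rw [← map_add, e0 (v + w) a v, AlternatingMap.map_update_add, ← e0, ← e0]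
  · intro c a v
    have h := (exteriorPower.ιMulti ℤ (M := UV F) 2).map_update_smul ![v, a] 0 c v
    rw [← e0, ← e0] at h
    rw [h, LinearMap.map_smul]
  · intro s
    rw [LinearMap.mk₂_apply, (exteriorPower.ιMulti ℤ 2).map_eq_zero_of_eq _ (i := 0) (j := 1)
      (by simp) (by simp), map_zero]
  · intro y
    have h := LinearMap.congr_fun hL (Finsupp.single none 1)
    rw [← toTheta_apply, h]
    change L (delta2 F (Finsupp.single none 1)) y = 0
    have h3 : delta2 F (Finsupp.single none 1) = 0 := by simp [delta2]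
    rw [h3, map_zero]
    rfl
  · intro x y
    have h := LinearMap.congr_fun hL (Finsupp.single (some x) 1)
    rw [← toTheta_apply, h]
    change L (delta2 F (Finsupp.single (some x) 1)) y =
      L (exteriorPower.ιMulti ℤ 2 ![cl (1 - x), cl x]) y
    have h3 : delta2 F (Finsupp.single (some x) 1) =
      exteriorPower.ιMulti ℤ 2 ![cl (1 - x), cl x] := by simp [delta2]
    rw [h3]

/-- a functional which kills the image of the last but one differential and the Bloch part factors
through the last differential -/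
theorem factor (hF : SpanDual F 1) (j : ℕ) (e : TQ F 2 (j + 1) →ₗ[ℚ] LQ F (j + 3))
    (he : IsLast (j + 1) e) (φ : TQ F 2 (j + 1) →ₗ[ℚ] ℚ) (h1 : ∀ u ∈ ImLast F j, φ u = 0)
    (h2 : ∀ u ∈ BlochPart F (j + 1), φ u = 0) :
    ∃ ψ : LQ F (j + 3) →ₗ[ℚ] ℚ, ∀ v, φ v = ψ (e v) := by
  obtain ⟨Q, hS, hnone, hsome⟩ := exists_form (j + 1) φ h2
  obtain ⟨Θ, hΘ⟩ := koszul_last (j + 1) Q hS (by
    intro i hi s v y
    obtain rfl : j = i := by omega
    have h3 := hF (MultilinearMap.uncurryRight (M := fun _ : Fin (1 + 1) => UV F)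
      (MultilinearMap.mk' (fun t : Fin 1 → UV F => LinearMap.mk₂ ℤ
        (fun b v => Q (t 0) v (Fin.cons b y))
        (fun a b c => AlternatingMap.map_vecCons_add _ y a b)
        (fun c a b => AlternatingMap.map_vecCons_smul _ y c a)
        (fun a b c => by simp) (fun c a b => by simp))
        (fun t i x y => by
          ext b v
          obtain rfl : i = 0 := Subsingleton.elim _ _
          simp [LinearMap.mk₂_apply])
        (fun t i c x => by
          ext b v
          obtain rfl : i = 0 := Subsingleton.elim _ _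
          simp [LinearMap.mk₂_apply]))) (by
      intro f hf0 hf1
      change Q (cl f) (cl (1 - f)) (Fin.cons (cl f) y) = 0
      rw [← hsome]
      exact h1 _ (Submodule.subset_span ⟨f, y, hf0, rfl⟩)) s v
    exact h3)
  refine ⟨ofAlt Θ, fun v => ?_⟩
  have h2 : φ = (ofAlt Θ) ∘ₗ e := by
    apply text
    intro x y
    rw [LinearMap.comp_apply]
    rcases x with _ | x
    · rw [hnone, he.1, map_zero]
    · by_cases hx : x = 0
      · subst hx
        rw [he.2.1, map_zero, hsome, E2.cl_zero, map_zero]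
        rfl
      · by_cases hx1 : x = 1
        · subst hx1
          rw [he.2.2.1, map_zero, hsome, sub_self, E2.cl_zero, map_zero]
          rfl
        · rw [he.2.2.2 x y hx hx1, ofAlt_apply, hΘ, hsome]
  rw [h2]
  rfl

/-- the composition of two differentials is zero -/
theorem im_le (j : ℕ) (e : TQ F 2 (j + 1) →ₗ[ℚ] LQ F (j + 3)) (he : IsLast (j + 1) e) :
    ImLast F j ≤ LinearMap.ker e := by
  refine Submodule.span_le.2 ?_
  rintro _ ⟨x, y, hx, rfl⟩
  rw [SetLike.mem_coe, LinearMap.mem_ker]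
  by_cases hx1 : x = 1
  · subst hx1
    exact he.2.2.1 _
  · rw [he.2.2.2 _ _ hx hx1]
    unfold lq
    rw [AlternatingMap.map_eq_zero_of_eq (exteriorPower.ιMulti ℤ (j + 1 + 2)) _
      (i := ⟨1, by omega⟩) (j := ⟨2, by omega⟩) (by rfl) (by simp [Fin.ext_iff]),
      TensorProduct.tmul_zero]

/-- the Bloch part is in the kernel -/
theorem bloch_le (j : ℕ) (e : TQ F 2 j →ₗ[ℚ] LQ F (j + 2)) (he : IsLast j e) :
    BlochPart F j ≤ LinearMap.ker e := by
  refine Submodule.span_le.2 ?_
  rintro _ ⟨α, y, hα, rfl⟩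
  rw [SetLike.mem_coe, LinearMap.mem_ker]
  let g1 : ZP F →+ LQ F (j + 2) := AddMonoidHom.mk'
    (fun β => e ((1 : ℚ) ⊗ₜ[ℤ] ((R 2 F).mkQ β ⊗ₜ[ℤ] exteriorPower.ιMulti ℤ j y)))
    (fun a b => by rw [map_add, TensorProduct.add_tmul, TensorProduct.tmul_add, map_add])
  let g2 : ZP F →+ LQ F (j + 2) := AddMonoidHom.mk'
    (fun β => ev (e1Psi F j) β (exteriorPower.ιMulti ℤ j y))
    (fun a b => by rw [map_add]; rfl)
  have h2 : g1 = g2 := by
    refine Finsupp.addHom_ext fun x n => ?_
    have hx : e (tq F 2 j x y) = ev (e1Psi F j) (Finsupp.single x 1)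
        (exteriorPower.ιMulti ℤ j y) := by
      rcases x with _ | x
      · rw [he.1, e1ev_none]
        rfl
      · rw [e1ev_some, e1Psi_apply]
        by_cases hx : x = 0
        · subst hx
          rw [he.2.1, E2.cl_zero, map_zero]
          rfl
        · by_cases hx1 : x = 1
          · subst hx1
            rw [he.2.2.1, sub_self, E2.cl_zero, map_zero]
            rfl
          · rw [he.2.2.2 x y hx hx1, e1Psi2_apply]
    have hs : (Finsupp.single x n : ZP F) = n • Finsupp.single x 1 := by simp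
    rw [hs, map_zsmul, map_zsmul]
    congr 1
  change g1 α = 0
  rw [h2]
  change ev (e1Psi F j) α (exteriorPower.ιMulti ℤ j y) = 0
  rw [TC2.ev_ker_delta2 (e1Psi F j) (e1Psi_self F j) α hα]
  rfl

/-- kernel of the last differential in degree `n - 1` -/
theorem ker_last (hF : SpanDual F 1) (j : ℕ) (e : TQ F 2 (j + 1) →ₗ[ℚ] LQ F (j + 3))
    (he : IsLast (j + 1) e) : LinearMap.ker e = ImLast F j ⊔ BlochPart F (j + 1) := by
  apply le_antisymm
  · intro u hu
    by_contra hn
    obtain ⟨φ, h1, h2⟩ := exists_dual_ne hn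
    obtain ⟨ψ, hψ⟩ := factor hF j e he φ (fun u hu => h1 u (Submodule.mem_sup_left hu))
      (fun u hu => h1 u (Submodule.mem_sup_right hu))
    apply h2
    rw [hψ, LinearMap.mem_ker.1 hu, map_zero]
  · exact sup_le (im_le j e he) (bloch_le (j + 1) e he)

/-- the last differentials exist and are unique -/
theorem exists_last (F : Type) [Field F] (j : ℕ) :
    ∃! e : TQ F 2 j →ₗ[ℚ] LQ F (j + 2), IsLast j e := by
  refine ⟨e1e F j, ⟨?_, ?_, ?_, ?_⟩, ?_⟩
  · intro y
    rw [e1e_apply, e1ev_none]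
    rfl
  · intro y
    rw [e1e_apply, e1ev_some, e1Psi_apply, e1Psi2_apply, e1cl_zero]
    unfold lq
    rw [(exteriorPower.ιMulti ℤ (j + 2)).map_coord_zero (i := 1) (by simp),
      TensorProduct.tmul_zero]
  · intro y
    rw [e1e_apply, e1ev_some, e1Psi_apply, e1Psi2_apply, e1cl_one]
    unfold lq
    rw [(exteriorPower.ιMulti ℤ (j + 2)).map_coord_zero (i := 1) (by simp),
      TensorProduct.tmul_zero]
  · intro x y _ _
    rw [e1e_apply, e1ev_some, e1Psi_apply, e1Psi2_apply]
  · intro e he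
    apply text
    intro x y
    rw [e1e_apply]
    rcases x with _ | x
    · rw [he.1, e1ev_none]
      rfl
    · rw [e1ev_some, e1Psi_apply]
      by_cases hx : x = 0
      · subst hx
        rw [he.2.1, E2.cl_zero, map_zero]
        rfl
      · by_cases hx1 : x = 1
        · subst hx1
          rw [he.2.2.1, sub_self, E2.cl_zero, map_zero]
          rfl
        · rw [he.2.2.2 x y hx hx1, e1Psi2_apply]

/-- the image of the last but one differential -/
theorem range_lbo (j : ℕ) (d : TQ F 3 j →ₗ[ℚ] TQ F 2 (j + 1)) (hd : IsLastButOne j d) :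
    LinearMap.range d = ImLast F j := by
  apply le_antisymm
  · -- a functional killing `ImLast` kills the range
    intro u hu
    by_contra hn
    obtain ⟨φ, h1, h2⟩ := exists_dual_ne hn
    obtain ⟨v, rfl⟩ := hu
    have h3 : φ ∘ₗ d = 0 := by
      apply text
      intro x y
      rw [LinearMap.comp_apply, LinearMap.zero_apply]
      rcases x with _ | x
      · rw [hd.1, map_zero]
      · by_cases hx : x = 0
        · subst hx
          rw [hd.2.1, map_zero]
        · rw [hd.2.2 x y hx]
          exact h1 _ (Submodule.subset_span ⟨x, y, hx, rfl⟩)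
    exact h2 (LinearMap.congr_fun h3 v)
  · refine Submodule.span_le.2 ?_
    rintro _ ⟨x, y, hx, rfl⟩
    exact ⟨_, hd.2.2 x y hx⟩

end

end Pool.Agent.Helper87K9.PL
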