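import Pool.Agent.Helper87K9.PL.Defs

set_option autoImplicit false

namespace Pool.Agent.Helper87K9.PL

theorem bas : S_BAS := by
  intro T hT
  have m1 := hT.mul₁
  have m3 := hT.mul₃
  have hs := hT.symm
  have m2 : ∀ a b b' c : ℚ, a ≠ 0 → b ≠ 0 → b' ≠ 0 → c ≠ 0 →
      T a (b * b') c = T a b c + T a b' c := by
    intro a b b' c ha hb hb' hc
    rw [hs, m1 b b' a c hb hb' ha hc, hs b, hs b']
  have one1 : ∀ b c, b ≠ 0 → c ≠ 0 → T 1 b c = 0 := by
    intro b c hb hc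
    have := m1 1 1 b c one_ne_zero one_ne_zero hb hc
    rw [mul_one] at this
    linarith
  have one3 : ∀ b c, b ≠ 0 → c ≠ 0 → T b c 1 = 0 := by
    intro b c hb hc
    have := m3 b c 1 1 hb hc one_ne_zero one_ne_zero
    rw [mul_one] at this
    linarith
  have neg1 : ∀ b c, b ≠ 0 → c ≠ 0 → T (-1) b c = 0 := by
    intro b c hb hc
    have := m1 (-1) (-1) b c (by norm_num) (by norm_num) hb hc
    rw [show ((-1 : ℚ) * -1) = 1 by norm_num, one1 b c hb hc] at this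
    linarith
  have neg3 : ∀ b c, b ≠ 0 → c ≠ 0 → T b c (-1) = 0 := by
    intro b c hb hc
    have := m3 b c (-1) (-1) hb hc (by norm_num) (by norm_num)
    rw [show ((-1 : ℚ) * -1) = 1 by norm_num, one3 b c hb hc] at this
    linarith
  have inv1 : ∀ a b c, a ≠ 0 → b ≠ 0 → c ≠ 0 → T a⁻¹ b c = - T a b c := by
    intro a b c ha hb hc
    have := m1 a a⁻¹ b c ha (inv_ne_zero ha) hb hc
    rw [mul_inv_cancel₀ ha, one1 b c hb hc] at this
    linarith
  have inv3 : ∀ a b c, a ≠ 0 → b ≠ 0 → c ≠ 0 → T a b c⁻¹ = - T a b c := by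
    intro a b c ha hb hc
    have := m3 a b c c⁻¹ ha hb hc (inv_ne_zero hc)
    rw [mul_inv_cancel₀ hc, one3 a b ha hb] at this
    linarith
  have ng1 : ∀ a b c, a ≠ 0 → b ≠ 0 → c ≠ 0 → T (-a) b c = T a b c := by
    intro a b c ha hb hc
    have := m1 (-1) a b c (by norm_num) ha hb hc
    rw [neg_one_mul, neg1 b c hb hc] at this
    linarith
  have ng3 : ∀ a b c, a ≠ 0 → b ≠ 0 → c ≠ 0 → T a b (-c) = T a b c := by
    intro a b c ha hb hc
    have := m3 a b (-1) c ha hb (by norm_num) hc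
    rw [neg_one_mul, neg3 a b ha hb] at this
    linarith
  have fff : ∀ f, f ≠ 0 → T f f f = 0 := by
    intro f hf
    by_cases h1 : f = 1
    · subst h1
      exact one1 1 1 one_ne_zero one_ne_zero
    · have e1 := hT.sym f hf h1
      have e2 := hT.sym f⁻¹ (inv_ne_zero hf) (by simpa using h1)
      have hf1 : (1 : ℚ) - f ≠ 0 := sub_ne_zero.2 (Ne.symm h1)
      have e3 : (1 : ℚ) - f⁻¹ = (-1) * ((1 - f) * f⁻¹) := by field_simp; ring
      have hi := inv_ne_zero hf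
      rw [e3, m3 _ _ _ _ hi hi (by norm_num) (mul_ne_zero hf1 hi), neg3 _ _ hi hi,
        m3 _ _ _ _ hi hi hf1 hi, inv1 _ _ _ hf hi hf1, inv1 _ _ _ hf hi hi, hs f, hs f,
        inv1 _ _ _ hf hf hf1, inv1 _ _ _ hf hf hi, inv3 _ _ _ hf hf hf, e1] at e2
      linarith
  have two : ∀ a b, a ≠ 0 → b ≠ 0 → T a a b + 2 * T a b a = 0 := by
    -- h a b + h b a = 0
    have key : ∀ a b, a ≠ 0 → b ≠ 0 →
        (T a a b + 2 * T a b a) + (T b b a + 2 * T a b b) = 0 := by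
      intro a b ha hb
      have hab := mul_ne_zero ha hb
      have h := fff (a * b) hab
      rw [m1 _ _ _ _ ha hb hab hab, m2 _ _ _ _ ha ha hb hab, m2 _ _ _ _ hb ha hb hab,
        m3 _ _ _ _ ha ha ha hb, m3 _ _ _ _ ha hb ha hb, m3 _ _ _ _ hb ha ha hb,
        m3 _ _ _ _ hb hb ha hb, fff a ha, fff b hb, hs b a a, hs b a b] at h
      linarith
    intro a b ha hb
    have hbb := mul_ne_zero hb hb
    have h1 := key a b ha hb
    have h2 := key a (b * b) ha hbb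
    rw [m3 _ _ _ _ ha ha hb hb, m2 _ _ _ _ ha hb hb ha, m1 _ _ _ _ hb hb hbb ha,
      m2 _ _ _ _ hb hb hb ha, m2 _ _ _ _ ha hb hb hbb, m3 _ _ _ _ ha hb hb hb] at h2
    linarith
  refine ⟨fun b c hb hc => ⟨one1 b c hb hc, neg1 b c hb hc, one3 b c hb hc, neg3 b c hb hc⟩,
    fun a b c ha hb hc => ⟨inv1 a b c ha hb hc, inv3 a b c ha hb hc, ng1 a b c ha hb hc,
      ng3 a b c ha hb hc⟩, fff, two, ?_⟩
  intro a b c ha hb hc
  have hac := mul_ne_zero ha hc
  have h := two (a * c) b hac hb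
  have h1 := two a b ha hb
  have h2 := two c b hc hb
  rw [m1 _ _ _ _ ha hc hac hb, m2 _ _ _ _ ha ha hc hb, m2 _ _ _ _ hc ha hc hb,
    m1 _ _ _ _ ha hc hb hac, m3 _ _ _ _ ha hb ha hc, m3 _ _ _ _ hc hb ha hc, hs c a b] at h
  rw [hs c a b, hs b c a]
  linarith

end Pool.Agent.Helper87K9.PL
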