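import Pool.Agent.Helper87K9.PL.Defs

/-!
# Weight 3 symbols on `ℚ^*`: the Steinberg symbols with `p` vanish [BZ]
-/

set_option autoImplicit false

namespace Pool.Agent.Helper87K9.PL

namespace BzL

theorem Sm.ne {p : ℕ} {x : ℚ} (h : Sm p x) : x ≠ 0 := by
  induction h with
  | int s h _ => exact_mod_cast h
  | mul _ _ h1 h2 => exact mul_ne_zero h1 h2
  | inv _ h1 => exact inv_ne_zero h1

theorem Sm.div {p : ℕ} {x y : ℚ} (hx : Sm p x) (hy : Sm p y) : Sm p (x / y) := by
  rw [div_eq_mul_inv]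
  exact Sm.mul hx (Sm.inv hy)

theorem cast_ne {p : ℕ} {s : ℤ} (h : s ≠ 0) (h' : |s| < p) : (s : ZMod p) ≠ 0 := by
  intro h0
  rw [ZMod.intCast_zmod_eq_zero_iff_dvd] at h0
  exact h (Int.eq_zero_of_abs_lt_dvd h0 h')

theorem bound {p : ℤ} {A r C s : ℤ} (hA : |A| < p) (hr : |r| < p) (hC : |C| < p)
    (h : A - r * C = p * s) : |s| < p := by
  have hp : 0 < p := lt_of_le_of_lt (abs_nonneg _) hA
  have h1 : p * |s| = |A - r * C| := by rw [h, abs_mul, abs_of_pos hp]
  have h2 : |A - r * C| ≤ |A| + |r| * |C| := by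
    have := abs_sub A (r * C)
    rwa [abs_mul] at this
  have h3 : |r| * |C| ≤ (p - 1) * (p - 1) :=
    mul_le_mul (by omega) (by omega) (abs_nonneg _) (by omega)
  have h4 : p * |s| ≤ p * (p - 1) := by nlinarith
  have h5 : |s| ≤ p - 1 := le_of_mul_le_mul_left h4 hp
  omega

section

variable {T : ℚ → ℚ → ℚ → ℚ} (p : ℕ)

/-- The symbol. -/
def F (T : ℚ → ℚ → ℚ → ℚ) (p : ℕ) (x : ℚ) : ℚ := T p x (1 - x)

theorem claim1 [hpf : Fact p.Prime] (hT : Sym T) (hv : Van T p) (hR : S_RTWO) (A C : ℤ) (hA : A ≠ 0)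
    (hC : C ≠ 0) (hAC : A ≠ C) (hA' : |A| < p) (hC' : |C| < p) (hd : |C - A| < p) :
    F T p (A / C) = F T p ((((A : ZMod p) / (C : ZMod p)).val : ℕ) : ℚ) := by
  have hp : p.Prime := hpf.out
  obtain ⟨z, hz⟩ : ∃ z : ZMod p, z = (A : ZMod p) / (C : ZMod p) := ⟨_, rfl⟩
  rw [← hz]
  have hAz := cast_ne hA hA'
  have hCz := cast_ne hC hC'
  have hdz : ((C - A : ℤ) : ZMod p) ≠ 0 := cast_ne (by omega) hd
  have hz0 : z ≠ 0 := by rw [hz]; exact div_ne_zero hAz hCz
  have hz1 : z ≠ 1 := by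
    intro h
    rw [hz, div_eq_one_iff_eq hCz] at h
    apply hdz
    push_cast
    rw [h, sub_self]
  obtain ⟨r, hr⟩ : ∃ r : ℕ, r = z.val := ⟨_, rfl⟩
  rw [← hr]
  have hrz : (r : ZMod p) = z := by rw [hr]; exact ZMod.natCast_zmod_val z
  have hrp : r < p := by rw [hr]; exact ZMod.val_lt z
  have hr0 : r ≠ 0 := by
    rintro rfl
    apply hz0
    rw [← hrz]; simp
  have hr1 : r ≠ 1 := by
    rintro rfl
    apply hz1
    rw [← hrz]; simp
  obtain ⟨s, hs⟩ : (p : ℤ) ∣ A - r * C := by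
    rw [← ZMod.intCast_zmod_eq_zero_iff_dvd]
    push_cast
    rw [hrz, hz, div_mul_cancel₀ _ hCz, sub_self]
  have hsp : |s| < p := bound hA' (by rw [abs_of_nonneg (by positivity)]; exact_mod_cast hrp) hC' hs
  have hAq : (A : ℚ) ≠ 0 := by exact_mod_cast hA
  have hCq : (C : ℚ) ≠ 0 := by exact_mod_cast hC
  have hrq : (r : ℚ) ≠ 0 := by exact_mod_cast hr0
  by_cases hs0 : s = 0
  · rw [hs0, mul_zero, sub_eq_zero] at hs
    have : (A : ℚ) / C = r := by
      rw [hs]
      push_cast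
      field_simp
    rw [this]
  · have hsA : Sm p (A : ℚ) := Sm.int A hA hA'
    have hsC : Sm p (C : ℚ) := Sm.int C hC hC'
    have hsr : Sm p (r : ℚ) := by
      have := Sm.int (p := p) (r : ℤ) (by exact_mod_cast hr0)
        (by rw [abs_of_nonneg (by positivity)]; exact_mod_cast hrp)
      simpa using this
    have hss : Sm p (s : ℚ) := Sm.int s hs0 hsp
    have hsd : Sm p ((C - A : ℤ) : ℚ) := Sm.int _ (by omega) hd
    have hs1 : Sm p (1 - (r : ℚ)) := by
      have := Sm.int (p := p) (1 - (r : ℤ)) (by omega) (by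
        rw [abs_lt]; constructor <;> omega)
      push_cast at this
      exact this
    have e1 : (A : ℚ) / C * (r * C / A) = r := by field_simp
    have hq : (A : ℚ) - r * C = p * s := by exact_mod_cast hs
    have h := hR T p hT hp hv (A / C) (r * C / A) (s / A) (Sm.div hsA hsC)
      (by
        have : (1 : ℚ) - A / C = ((C - A : ℤ) : ℚ) / C := by push_cast; field_simp
        rw [this]
        exact Sm.div hsd hsC)
      (Sm.div (Sm.mul hsr hsC) hsA) (Sm.div hss hsA)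
      (by
        field_simp
        linarith)
      (by rw [e1]; exact hs1)
    rw [e1] at h
    exact h

theorem claim2 [hpf : Fact p.Prime] (hT : Sym T) (hv : Van T p) (hR : S_RTWO) (A C D : ℤ) (hA : A ≠ 0)
    (hC : C ≠ 0) (hD : D ≠ 0) (hA' : |A| < p) (hC' : |C| < p) (hD' : |D| < p)
    (hnd : ¬ (p : ℤ) ∣ C * D - A) (hsm : Sm p ((C * D - A : ℤ) : ℚ)) :
    F T p (A / (C * D)) = F T p ((((A : ZMod p) / ((C : ZMod p) * D)).val : ℕ) : ℚ) := by
  have hp : p.Prime := hpf.out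
  have hCz := cast_ne hC hC'
  have hDz := cast_ne hD hD'
  have hp0 : (0 : ℤ) < p := by exact_mod_cast hp.pos
  -- the residue with the sign of `A`
  obtain ⟨m, hm0, hmp, hmA, hmd⟩ : ∃ m : ℤ, m ≠ 0 ∧ |m| < p ∧ |m - A| < p ∧
      (p : ℤ) ∣ m - C * D := by
    have h1 := Int.emod_nonneg (C * D) hp0.ne'
    have h2 := Int.emod_lt_of_pos (C * D) hp0
    have h3 : C * D % p ≠ 0 := by
      intro h
      have h4 : (p : ℤ) ∣ C * D := Int.dvd_of_emod_eq_zero h
      rw [← ZMod.intCast_zmod_eq_zero_iff_dvd] at h4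
      push_cast at h4
      exact mul_ne_zero hCz hDz h4
    have h5 : (p : ℤ) ∣ C * D % p - C * D := by
      have := Int.emod_add_mul_ediv (C * D) p
      exact ⟨-(C * D / p), by linarith⟩
    rw [abs_lt] at hA'
    rcases lt_or_gt_of_ne hA with h | h
    · refine ⟨C * D % p - p, by omega, ?_, ?_, ?_⟩
      · rw [abs_lt]; constructor <;> omega
      · rw [abs_lt]; constructor <;> omega
      · obtain ⟨c, hc⟩ := h5
        exact ⟨c - 1, by linarith⟩
    · refine ⟨C * D % p, by omega, ?_, ?_, h5⟩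
      · rw [abs_lt]; constructor <;> omega
      · rw [abs_lt]; constructor <;> omega
  have hAm : A ≠ m := by
    rintro rfl
    apply hnd
    obtain ⟨c, hc⟩ := hmd
    exact ⟨-c, by linarith⟩
  have hmz : ((m : ℤ) : ZMod p) = (C : ZMod p) * D := by
    rw [← ZMod.intCast_zmod_eq_zero_iff_dvd] at hmd
    push_cast at hmd
    exact sub_eq_zero.1 hmd
  have h1 := claim1 p hT hv hR A m hA hm0 hAm hA' hmp hmA
  rw [hmz] at h1
  rw [← h1]
  obtain ⟨s, hs⟩ := hmd
  have hsp : |s| < p := bound hmp hC' hD' hs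
  have hAq : (A : ℚ) ≠ 0 := by exact_mod_cast hA
  have hCq : (C : ℚ) ≠ 0 := by exact_mod_cast hC
  have hDq : (D : ℚ) ≠ 0 := by exact_mod_cast hD
  have hmq : (m : ℚ) ≠ 0 := by exact_mod_cast hm0
  by_cases hs0 : s = 0
  · rw [hs0, mul_zero, sub_eq_zero] at hs
    have : (m : ℚ) = C * D := by exact_mod_cast hs
    rw [this]
  · have hsA : Sm p (A : ℚ) := Sm.int A hA hA'
    have hsC : Sm p (C : ℚ) := Sm.int C hC hC'
    have hsD : Sm p (D : ℚ) := Sm.int D hD hD'
    have hsm' : Sm p (m : ℚ) := Sm.int m hm0 hmp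
    have hss : Sm p (s : ℚ) := Sm.int s hs0 hsp
    have hsmA : Sm p ((m - A : ℤ) : ℚ) := Sm.int _ (by omega) hmA
    have e1 : (A : ℚ) / (C * D) * (C * D / m) = A / m := by field_simp
    have hq : (m : ℚ) - C * D = p * s := by exact_mod_cast hs
    have h := hR T p hT hp hv (A / (C * D)) (C * D / m) (s / m) (Sm.div hsA (Sm.mul hsC hsD))
      (by
        have : (1 : ℚ) - A / (C * D) = ((C * D - A : ℤ) : ℚ) / (C * D) := by
          push_cast; field_simp
        rw [this]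
        exact Sm.div hsm (Sm.mul hsC hsD))
      (Sm.div (Sm.mul hsC hsD) hsm') (Sm.div hss hsm')
      (by
        field_simp
        linarith)
      (by
        rw [e1]
        have : (1 : ℚ) - A / m = ((m - A : ℤ) : ℚ) / m := by push_cast; field_simp
        rw [this]
        exact Sm.div hsmA hsm')
    rw [e1] at h
    exact h

end

end BzL

open BzL in
/-- [BZ] -/
theorem bz : S_BAS → S_ALT → S_RTWO → S_FIVE → S_BZ := by
  intro hBas hAlt hR hFive T p hT hp hv
  have hpf := Fact.mk hp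
  obtain ⟨hb1, hb2, -, -, -⟩ := hBas T hT
  have hpq : (p : ℚ) ≠ 0 := by exact_mod_cast hp.ne_zero
  -- bilinearity
  have m1 : ∀ x x' y : ℚ, x ≠ 0 → x' ≠ 0 → y ≠ 0 → T p (x * x') y = T p x y + T p x' y := by
    intro x x' y h h' h''
    rw [hT.symm, hT.mul₁ x x' p y h h' hpq h'', hT.symm x, hT.symm x']
  have m3 : ∀ x y y' : ℚ, x ≠ 0 → y ≠ 0 → y' ≠ 0 → T p x (y * y') = T p x y + T p x y' :=
    fun x y y' h h' h'' => hT.mul₃ p x y y' hpq h h' h''
  have i1 : ∀ x y : ℚ, x ≠ 0 → y ≠ 0 → T p x⁻¹ y = - T p x y := by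
    intro x y h h'
    rw [hT.symm, (hb2 x p y h hpq h').1, hT.symm x]
  have i3 : ∀ x y : ℚ, x ≠ 0 → y ≠ 0 → T p x y⁻¹ = - T p x y :=
    fun x y h h' => (hb2 p x y hpq h h').2.1
  have n1 : ∀ x y : ℚ, x ≠ 0 → y ≠ 0 → T p (-x) y = T p x y := by
    intro x y h h'
    rw [hT.symm, (hb2 x p y h hpq h').2.2.1, hT.symm x]
  have n3 : ∀ x y : ℚ, x ≠ 0 → y ≠ 0 → T p x (-y) = T p x y :=
    fun x y h h' => (hb2 p x y hpq h h').2.2.2
  have d1 : ∀ x x' y : ℚ, x ≠ 0 → x' ≠ 0 → y ≠ 0 → T p (x / x') y = T p x y - T p x' y := by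
    intro x x' y h h' h''
    rw [div_eq_mul_inv, m1 _ _ _ h (inv_ne_zero h') h'', i1 _ _ h' h'']
    ring
  have d3 : ∀ x y y' : ℚ, x ≠ 0 → y ≠ 0 → y' ≠ 0 → T p x (y / y') = T p x y - T p x y' := by
    intro x y y' h h' h''
    rw [div_eq_mul_inv, m3 _ _ _ h h' (inv_ne_zero h''), i3 _ _ h h'']
    ring
  have alt := hAlt T p hT hp hv
  have alt0 : ∀ x : ℚ, Sm p x → T p x x = 0 := by
    intro x hx
    have := alt x x hx hx
    linarith
  obtain ⟨β, hβ⟩ : ∃ β : ZMod p → ℚ, ∀ z, β z = F T p ((z.val : ℕ) : ℚ) := ⟨_, fun z => rfl⟩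
  have c1 : ∀ A C : ℤ, A ≠ 0 → C ≠ 0 → A ≠ C → |A| < p → |C| < p → |C - A| < p →
      F T p (A / C) = β ((A : ZMod p) / (C : ZMod p)) := by
    intro A C h1 h2 h3 h4 h5 h6
    rw [hβ]
    exact claim1 p hT hv hR A C h1 h2 h3 h4 h5 h6
  have c2 : ∀ A C D : ℤ, A ≠ 0 → C ≠ 0 → D ≠ 0 → |A| < p → |C| < p → |D| < p →
      ¬ (p : ℤ) ∣ C * D - A → Sm p ((C * D - A : ℤ) : ℚ) →
      F T p (A / (C * D)) = β ((A : ZMod p) / ((C : ZMod p) * D)) := by
    intro A C D h1 h2 h3 h4 h5 h6 h7 h8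
    rw [hβ]
    exact claim2 p hT hv hR A C D h1 h2 h3 h4 h5 h6 h7 h8
  -- the value of a residue class
  have hval : ∀ z : ZMod p, z ≠ 0 → z ≠ 1 → ∃ r : ℤ, 2 ≤ r ∧ r < p ∧ (r : ZMod p) = z ∧
      β z = F T p r := by
    intro z h0 h1
    refine ⟨z.val, ?_, by exact_mod_cast ZMod.val_lt z, ?_, ?_⟩
    · have h2 : z.val ≠ 0 := by rwa [Ne, ZMod.val_eq_zero]
      have h3 : z.val ≠ 1 := by
        intro h
        apply h1
        have := ZMod.natCast_zmod_val z
        rw [h] at this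
        rw [← this]; simp
      omega
    · rw [Int.cast_natCast, ZMod.natCast_zmod_val]
    · rw [hβ, Int.cast_natCast]
  have smi : ∀ s : ℤ, s ≠ 0 → |s| < p → Sm p (s : ℚ) := fun s h h' => Sm.int s h h'
  have hinv : ∀ z : ZMod p, z ≠ 0 → z ≠ 1 → β z⁻¹ = - β z := by
    intro z h0 h1
    obtain ⟨r, hr2, hrp, hrz, hb⟩ := hval z h0 h1
    have h2 := c1 1 r one_ne_zero (by omega) (by omega) (by rw [abs_one]; omega)
      (by rw [abs_of_nonneg (by omega)]; exact hrp) (by rw [abs_of_nonneg (by omega)]; omega)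
    rw [hrz, Int.cast_one, Int.cast_one, one_div, one_div] at h2
    rw [← h2, hb]
    have hr0 : (r : ℚ) ≠ 0 := by
      have : r ≠ 0 := by omega
      exact_mod_cast this
    have hr1 : (r : ℚ) - 1 ≠ 0 := by
      have : r - 1 ≠ 0 := by omega
      exact_mod_cast this
    unfold F
    have e1 : (1 : ℚ) - (r : ℚ)⁻¹ = (r - 1) / r := by field_simp
    have e2 : (1 : ℚ) - r = -(r - 1) := by ring
    rw [e1, e2, i1 _ _ hr0 (div_ne_zero hr1 hr0), d3 _ _ _ hr0 hr1 hr0, n3 _ _ hr0 hr1,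
      alt0 r (smi r (by omega) (by rw [abs_of_nonneg (by omega)]; exact hrp)), sub_zero]
  have hone : ∀ z : ZMod p, z ≠ 0 → z ≠ 1 → β (1 - z) = - β z := by
    intro z h0 h1
    obtain ⟨r, hr2, hrp, hrz, hb⟩ := hval z h0 h1
    have h2 := c1 (1 - r) 1 (by omega) one_ne_zero (by omega)
      (by rw [abs_lt]; constructor <;> omega) (by rw [abs_one]; omega)
      (by rw [abs_lt]; constructor <;> omega)
    push_cast at h2
    rw [hrz, div_one, div_one] at h2
    rw [← h2, hb]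
    unfold F
    have h3 := alt r (1 - r) (smi r (by omega) (by rw [abs_of_nonneg (by omega)]; exact hrp)) (by
      have := smi (1 - r) (by omega) (by rw [abs_lt]; constructor <;> omega)
      push_cast at this
      exact this)
    have e1 : (1 : ℚ) - (1 - r) = r := by ring
    rw [e1]
    linarith
  have hfive : ∀ x y : ZMod p, x ≠ 0 → x ≠ 1 → y ≠ 0 → y ≠ 1 → x ≠ y →
      β x - β y + β (y / x) - β ((1 - x⁻¹) / (1 - y⁻¹)) + β ((1 - x) / (1 - y)) = 0 := by
    intro x y hx0 hx1 hy0 hy1 hxy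
    obtain ⟨a, ha2, hap, hax, hba⟩ := hval x hx0 hx1
    obtain ⟨c, hc2, hcp, hcy, hbc⟩ := hval y hy0 hy1
    have hac : a ≠ c := by
      rintro rfl
      exact hxy (hax.symm.trans hcy)
    -- the elements
    have sa := smi a (by omega) (by rw [abs_of_nonneg (by omega)]; exact hap)
    have sc := smi c (by omega) (by rw [abs_of_nonneg (by omega)]; exact hcp)
    have sa1 := smi (a - 1) (by omega) (by rw [abs_of_nonneg (by omega)]; omega)
    have sc1 := smi (c - 1) (by omega) (by rw [abs_of_nonneg (by omega)]; omega)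
    have sca := smi (c - a) (by omega) (by rw [abs_lt]; constructor <;> omega)
    push_cast at sa1 sc1 sca
    have na := Sm.ne sa
    have nc := Sm.ne sc
    have na1 := Sm.ne sa1
    have nc1 := Sm.ne sc1
    have nca := Sm.ne sca
    have hx1' : x - 1 ≠ 0 := sub_ne_zero.2 hx1
    have hy1' : y - 1 ≠ 0 := sub_ne_zero.2 hy1
    -- the terms
    have t3 := c1 c a (by omega) (by omega) (by omega) (by rw [abs_of_nonneg (by omega)]; omega)
      (by rw [abs_of_nonneg (by omega)]; omega) (by rw [abs_lt]; constructor <;> omega)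
    rw [hax, hcy] at t3
    have t5 := c1 (a - 1) (c - 1) (by omega) (by omega) (by omega)
      (by rw [abs_of_nonneg (by omega)]; omega) (by rw [abs_of_nonneg (by omega)]; omega)
      (by rw [abs_lt]; constructor <;> omega)
    push_cast at t5
    rw [hax, hcy] at t5
    have e5 : (x - 1) / (y - 1) = (1 - x) / (1 - y) := by
      rw [← neg_sub 1 x, ← neg_sub 1 y, neg_div_neg_eq]
    rw [e5] at t5
    have hid : (a * (c - 1) - (c - a) : ℤ) = c * (a - 1) := by ring
    have t4 := c2 (c - a) a (c - 1) (by omega) (by omega) (by omega)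
      (by rw [abs_lt]; constructor <;> omega) (by rw [abs_of_nonneg (by omega)]; omega)
      (by rw [abs_of_nonneg (by omega)]; omega)
      (by
        rw [hid]
        intro h
        rw [← ZMod.intCast_zmod_eq_zero_iff_dvd] at h
        push_cast at h
        rw [hax, hcy] at h
        exact mul_ne_zero hy0 hx1' h)
      (by
        rw [hid]
        push_cast
        exact Sm.mul sc sa1)
    push_cast at t4
    rw [hax, hcy] at t4
    -- the fifth argument
    have e4 : (y - x) / (x * (y - 1)) = 1 - (1 - x⁻¹) / (1 - y⁻¹) := by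
      have h1 : (1 - x⁻¹) = (x - 1) / x := by field_simp
      have h2 : (1 - y⁻¹) = (y - 1) / y := by field_simp
      rw [h1, h2]
      field_simp
      ring
    have hX0 : (1 - x⁻¹) / (1 - y⁻¹) ≠ 0 := by
      have h1 : (1 - x⁻¹) = (x - 1) / x := by field_simp
      have h2 : (1 - y⁻¹) = (y - 1) / y := by field_simp
      rw [h1, h2]
      exact div_ne_zero (div_ne_zero hx1' hx0) (div_ne_zero hy1' hy0)
    have hX1 : (1 - x⁻¹) / (1 - y⁻¹) ≠ 1 := by
      intro h
      rw [h, sub_self] at e4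
      exact div_ne_zero (sub_ne_zero.2 hxy.symm) (mul_ne_zero hx0 hy1') e4
    rw [e4, hone _ hX0 hX1] at t4
    -- expansion
    unfold F at t3 t4 t5 hba hbc
    have g3 : (1 : ℚ) - c / a = -((c - a) / a) := by field_simp; ring
    have g5 : (1 : ℚ) - (a - 1) / (c - 1) = (c - a) / (c - 1) := by field_simp; ring
    have g4 : (1 : ℚ) - (c - a) / (a * (c - 1)) = (c * (a - 1)) / (a * (c - 1)) := by
      field_simp; ring
    have ga : (1 : ℚ) - a = -(a - 1) := by ring
    have gc : (1 : ℚ) - c = -(c - 1) := by ring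
    rw [g3, n3 _ _ (div_ne_zero nc na) (div_ne_zero nca na), d1 _ _ _ nc na (div_ne_zero nca na),
      d3 _ _ _ nc nca na, d3 _ _ _ na nca na] at t3
    rw [g5, d1 _ _ _ na1 nc1 (div_ne_zero nca nc1), d3 _ _ _ na1 nca nc1,
      d3 _ _ _ nc1 nca nc1] at t5
    rw [g4, d1 _ _ _ nca (mul_ne_zero na nc1) (div_ne_zero (mul_ne_zero nc na1)
      (mul_ne_zero na nc1)), m1 _ _ _ na nc1 (div_ne_zero (mul_ne_zero nc na1)
      (mul_ne_zero na nc1)), d3 _ _ _ nca (mul_ne_zero nc na1) (mul_ne_zero na nc1),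
      d3 _ _ _ na (mul_ne_zero nc na1) (mul_ne_zero na nc1),
      d3 _ _ _ nc1 (mul_ne_zero nc na1) (mul_ne_zero na nc1),
      m3 _ _ _ nca nc na1, m3 _ _ _ na nc na1, m3 _ _ _ nc1 nc na1,
      m3 _ _ _ nca na nc1, m3 _ _ _ na na nc1, m3 _ _ _ nc1 na nc1] at t4
    rw [ga, n3 _ _ na na1] at hba
    rw [gc, n3 _ _ nc nc1] at hbc
    have a1 := alt _ _ sa sa1
    have a2 := alt _ _ sc sc1
    have a3 := alt _ _ sca sc
    have a4 := alt _ _ sca sa1
    have a5 := alt _ _ sca sa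
    have a6 := alt _ _ sca sc1
    have a7 := alt _ _ sa sc
    have a8 := alt _ _ sa sc1
    have a9 := alt _ _ sc1 sa1
    have a10 := alt0 _ sa
    have a11 := alt0 _ sc1
    linarith
  have hzero := hFive (ZMod p) β hinv hone hfive
  have hz0 : ∀ A C : ℤ, (A : ZMod p) ≠ 0 → (C : ZMod p) ≠ 0 → ((C - A : ℤ) : ZMod p) ≠ 0 →
      β ((A : ZMod p) / (C : ZMod p)) = 0 := by
    intro A C h1 h2 h3
    refine hzero _ (div_ne_zero h1 h2) ?_
    intro h
    rw [div_eq_one_iff_eq h2] at h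
    apply h3
    push_cast
    rw [h, sub_self]
  refine ⟨?_, ?_⟩
  · intro A C h1 h2 h3 h4 h5 h6
    have h7 := c1 A C h1 h2 h3 h4 h5 h6
    rw [hz0 A C (cast_ne h1 h4) (cast_ne h2 h5) (cast_ne (by omega) h6)] at h7
    exact h7
  · intro A C D h1 h2 h3 h4 h5 h6 h7 h8
    have h9 := c2 A C D h1 h2 h3 h4 h5 h6 h7 h8
    have h10 := hz0 A (C * D) (cast_ne h1 h4) (by
      push_cast
      exact mul_ne_zero (cast_ne h2 h5) (cast_ne h3 h6)) (by
      intro h
      rw [ZMod.intCast_zmod_eq_zero_iff_dvd] at h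
      exact h7 h)
    push_cast at h10
    rw [h10] at h9
    exact h9

end Pool.Agent.Helper87K9.PL
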