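import Pool.Agent.Helper87K9.PL.Defs

set_option autoImplicit false

/-!
# A symmetric matrix on a finite cyclic group [CYC]
-/

namespace Pool.Agent.Helper87K9.PL

/-- [CYC] -/
theorem cyc : S_CYC := by
  intro G _ _ _ M hs h1 hq
  classical
  have := Fintype.ofFinite G
  obtain ⟨B, hB⟩ : ∃ B : LinearMap.BilinForm ℚ (G → ℚ),
      ∀ a b, B (Pi.single a 1) (Pi.single b 1) = M a b :=
    ⟨Matrix.toBilin' (Matrix.of M), fun a b => by
      rw [Matrix.toBilin'_single]
      rfl⟩
  let e : G → (G → ℚ) := fun a => Pi.single a 1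
  have hBe : ∀ a b, B (e a) (e b) = M a b := hB
  let δ : G → G → (G → ℚ) := fun a b => e (a * b) - e a - e b
  have h1' : ∀ x, M x 1 = 0 := fun x => by rw [hs, h1]
  have hBδ : ∀ z a b, B (e z) (δ a b) = M z (a * b) - M z a - M z b := by
    intro z a b
    simp only [δ, map_sub, hBe]
  have hδB : ∀ a b z, B (δ a b) (e z) = M (a * b) z - M a z - M b z := by
    intro a b z
    simp only [δ, map_sub, LinearMap.sub_apply, hBe]
  have hBδδ : ∀ a b c d, B (δ a b) (δ c d) =
      (M (a * b) (c * d) - M (a * b) c - M (a * b) d) - (M a (c * d) - M a c - M a d) -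
        (M b (c * d) - M b c - M b d) := by
    intro a b c d
    simp only [δ, map_sub, LinearMap.sub_apply, hBe]
    ring
  have hself : ∀ a b, B (δ a b) (δ a b) = 0 := by
    intro a b
    have h2 := hq a b (a * b) 1 (by rw [mul_one])
    unfold qf at h2
    rw [hBδδ]
    have h3 := hs (a * b) a
    have h4 := hs (a * b) b
    have h5 := hs a b
    have h6 := h1 (1 : G)
    have h7 := h1' (a * b)
    have h8 := h1' a
    have h9 := h1' b
    linarith
  have hsymδ : ∀ a b c d, B (δ a b) (δ c d) = B (δ c d) (δ a b) := by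
    intro a b c d
    rw [hBδδ, hBδδ, hs (c * d) (a * b), hs (c * d) a, hs (c * d) b, hs c (a * b), hs c a, hs c b,
      hs d (a * b), hs d a, hs d b]
    ring
  have heq : ∀ a b c d, a * b = c * d → B (δ a b) (δ c d) = 0 := by
    intro a b c d h
    have h2 := hq a b c d h
    unfold qf at h2
    have h3 := hself a b
    have h4 := hself c d
    rw [hBδδ] at h3 h4 ⊢
    rw [h] at h3 ⊢
    have e1 := hs (c * d) c
    have e2 := hs (c * d) d
    have e3 := hs (c * d) a
    have e4 := hs (c * d) b
    have e5 := hs c d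
    have e6 := hs a b
    linarith
  have hcoc : ∀ x y z, δ x y - δ y z = δ x (y * z) - δ (x * y) z := by
    intro x y z
    simp only [δ, mul_assoc]
    abel
  have hadj : ∀ x y z, B (δ x y) (δ y z) = 0 := by
    intro x y z
    have h2 : B (δ x y - δ y z) (δ x y - δ y z) =
        B (δ x (y * z) - δ (x * y) z) (δ x (y * z) - δ (x * y) z) := by rw [hcoc]
    simp only [map_sub, LinearMap.sub_apply] at h2
    have h3 := hself x y
    have h4 := hself y z
    have h5 := hself x (y * z)
    have h6 := hself (x * y) z
    have h7 := heq x (y * z) (x * y) z (mul_assoc x y z).symm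
    have h8 := hsymδ x (y * z) (x * y) z
    have h9 := hsymδ x y y z
    linarith
  -- the function `L`
  obtain ⟨g, hg⟩ := IsCyclic.exists_generator (α := G)
  have hL : ∀ u v y, B (e (y * u)) (δ u v) = B (e y) (δ u v) + B (e u) (δ u v) := by
    intro u v y
    have h2 := hadj y u v
    have h3 : B (δ y u) (δ u v) =
        B (e (y * u)) (δ u v) - B (e y) (δ u v) - B (e u) (δ u v) := by
      simp only [δ, map_sub, LinearMap.sub_apply]
      ring
    rw [h3] at h2
    linarith
  have he1 : ∀ u v, B (e 1) (δ u v) = 0 := by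
    intro u v
    rw [hBδ, h1, h1, h1]
    ring
  have hLu : ∀ u v, B (e u) (δ u v) = 0 := by
    intro u v
    have h2 : ∀ k : ℕ, B (e (u ^ k)) (δ u v) = k * B (e u) (δ u v) := by
      intro k
      induction k with
      | zero => simp [he1]
      | succ k ih =>
        rw [pow_succ, hL, ih]
        push_cast
        ring
    have h3 := h2 (Nat.card G)
    rw [pow_card_eq_one', he1] at h3
    have h4 : (Nat.card G : ℚ) ≠ 0 := by exact_mod_cast Nat.card_pos.ne'
    exact (mul_eq_zero.1 h3.symm).resolve_left h4
  have hg0 : ∀ z v, B (e z) (δ g v) = 0 := by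
    intro z v
    obtain ⟨k, rfl⟩ := (isOfFinOrder_of_finite g).mem_powers_iff_mem_zpowers.2 (hg z)
    simp only
    induction k with
    | zero =>
      simp only [pow_zero]
      exact he1 g v
    | succ k ih => rw [pow_succ, hL, ih, hLu, add_zero]
  have hmove : ∀ z x y, B (e z) (δ (g * x) y) = B (e z) (δ x y) := by
    intro z x y
    have h2 := hcoc g x y
    have h3 := congrArg (fun v => B (e z) v) h2
    simp only [map_sub, hg0] at h3
    linarith
  have hall : ∀ z x y, B (e z) (δ x y) = 0 := by
    intro z x y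
    obtain ⟨k, rfl⟩ := (isOfFinOrder_of_finite g).mem_powers_iff_mem_zpowers.2 (hg x)
    simp only
    induction k with
    | zero =>
      rw [pow_zero, hBδ, one_mul, h1']
      ring
    | succ k ih => rw [pow_succ', hmove, ih]
  have hhom : ∀ z x y, M z (x * y) = M z x + M z y := by
    intro z x y
    have := hall z x y
    rw [hBδ] at this
    linarith
  intro x y
  have h2 : ∀ k : ℕ, M x (y ^ k) = k * M x y := by
    intro k
    induction k with
    | zero => simp [h1']
    | succ k ih =>
      rw [pow_succ, hhom, ih]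
      push_cast
      ring
  have h3 := h2 (Nat.card G)
  rw [pow_card_eq_one', h1'] at h3
  have h4 : (Nat.card G : ℚ) ≠ 0 := by exact_mod_cast Nat.card_pos.ne'
  exact (mul_eq_zero.1 h3.symm).resolve_left h4

end Pool.Agent.Helper87K9.PL
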