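import Mathlib

set_option autoImplicit false

/-!
# Weight 3 symbols on `ℚ^*` (definitions for the proof that `{x}_2 ⊗ x` span)
-/

namespace Pool.Agent.Helper87K9.PL

/-- A function on `(ℚ^*)^3`, multiplicative (with values in `(ℚ,+)`) in every variable, symmetric in
the first two variables, with `T(f,f;1-f) = 0`. -/
structure Sym (T : ℚ → ℚ → ℚ → ℚ) : Prop where
  mul₁ : ∀ a a' b c : ℚ, a ≠ 0 → a' ≠ 0 → b ≠ 0 → c ≠ 0 → T (a * a') b c = T a b c + T a' b c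
  mul₃ : ∀ a b c c' : ℚ, a ≠ 0 → b ≠ 0 → c ≠ 0 → c' ≠ 0 → T a b (c * c') = T a b c + T a b c'
  symm : ∀ a b c : ℚ, T a b c = T b a c
  sym : ∀ f : ℚ, f ≠ 0 → f ≠ 1 → T f f (1 - f) = 0

/-- `T = 0` on the positive integers `< p`. -/
def Van (T : ℚ → ℚ → ℚ → ℚ) (p : ℕ) : Prop :=
  ∀ a b c : ℕ, 0 < a → a < p → 0 < b → b < p → 0 < c → c < p → T a b c = 0

/-- the multiplicative group generated by the integers `s` with `0 < |s| < p` -/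
inductive Sm (p : ℕ) : ℚ → Prop
  | int (s : ℤ) (h : s ≠ 0) (h' : |s| < p) : Sm p (s : ℚ)
  | mul {x y : ℚ} (hx : Sm p x) (hy : Sm p y) : Sm p (x * y)
  | inv {x : ℚ} (hx : Sm p x) : Sm p x⁻¹

/-- quadratic form of `[x₁] + [x₂] - [x₃] - [x₄]` for the symmetric matrix `M` -/
def qf {G : Type} (M : G → G → ℚ) (x₁ x₂ x₃ x₄ : G) : ℚ :=
  M x₁ x₁ + M x₂ x₂ + M x₃ x₃ + M x₄ x₄ + 2 * M x₁ x₂ + 2 * M x₃ x₄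
    - 2 * M x₁ x₃ - 2 * M x₁ x₄ - 2 * M x₂ x₃ - 2 * M x₂ x₄

/-! ### leaf statements -/

/-- [CYC] -/
def S_CYC : Prop := ∀ (G : Type) [CommGroup G] [Finite G] [IsCyclic G] (M : G → G → ℚ),
  (∀ x y, M x y = M y x) → (∀ x, M 1 x = 0) →
  (∀ x₁ x₂ x₃ x₄ : G, x₁ * x₂ = x₃ * x₄ → qf M x₁ x₂ x₃ x₄ = 0) → ∀ x y, M x y = 0

/-- [FIVE] -/
def S_FIVE : Prop := ∀ (K : Type) [Field K] [Fintype K] [DecidableEq K] (β : K → ℚ),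
  (∀ z : K, z ≠ 0 → z ≠ 1 → β z⁻¹ = - β z) → (∀ z : K, z ≠ 0 → z ≠ 1 → β (1 - z) = - β z) →
  (∀ x y : K, x ≠ 0 → x ≠ 1 → y ≠ 0 → y ≠ 1 → x ≠ y →
    β x - β y + β (y / x) - β ((1 - x⁻¹) / (1 - y⁻¹)) + β ((1 - x) / (1 - y)) = 0) →
  ∀ z : K, z ≠ 0 → z ≠ 1 → β z = 0

/-- [TATE] -/
def S_TATE : Prop := ∀ (p : ℕ) (b : ℕ → ℕ → ℚ),
  (∀ m m' n, 0 < m → 0 < m' → 0 < n → b (m * m') n = b m n + b m' n) →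
  (∀ m n, 0 < m → 0 < n → b m n = - b n m) →
  (∀ l R₁ R₂ R₃ S : ℕ, l.Prime → l < p → 0 < R₁ → R₁ < l → 0 < R₂ → R₂ < l → 0 < R₃ → R₃ < l →
    0 < S → S < l → R₁ * R₂ = l * S + R₃ →
    b R₃ l + b R₃ S - b R₃ R₁ - b R₃ R₂ - (b R₁ l + b R₁ S - b R₁ R₁ - b R₁ R₂)
      - (b R₂ l + b R₂ S - b R₂ R₁ - b R₂ R₂) = 0) →
  ∀ m n, 0 < m → m < p → 0 < n → n < p → b m n = 0

/-- [BAS] -/
def S_BAS : Prop := ∀ (T : ℚ → ℚ → ℚ → ℚ), Sym T →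
  (∀ b c, b ≠ 0 → c ≠ 0 → T 1 b c = 0 ∧ T (-1) b c = 0 ∧ T b c 1 = 0 ∧ T b c (-1) = 0) ∧
  (∀ a b c, a ≠ 0 → b ≠ 0 → c ≠ 0 → T a⁻¹ b c = - T a b c ∧ T a b c⁻¹ = - T a b c ∧
    T (-a) b c = T a b c ∧ T a b (-c) = T a b c) ∧
  (∀ f, f ≠ 0 → T f f f = 0) ∧
  (∀ a b, a ≠ 0 → b ≠ 0 → T a a b + 2 * T a b a = 0) ∧
  (∀ a b c, a ≠ 0 → b ≠ 0 → c ≠ 0 → T a b c + T b c a + T c a b = 0)

/-- [ALT] -/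
def S_ALT : Prop := ∀ (T : ℚ → ℚ → ℚ → ℚ) (p : ℕ), Sym T → p.Prime → Van T p →
  ∀ x y : ℚ, Sm p x → Sm p y → T p x y + T p y x = 0

/-- [RTWO] -/
def S_RTWO : Prop := ∀ (T : ℚ → ℚ → ℚ → ℚ) (p : ℕ), Sym T → p.Prime → Van T p →
  ∀ x w θ : ℚ, Sm p x → Sm p (1 - x) → Sm p w → Sm p θ → 1 - w = p * θ → Sm p (1 - x * w) →
    T p x (1 - x) = T p (x * w) (1 - x * w)

/-- [BZ] `T(p, x; 1 - x) = 0` for `x = A/C` and for `x = A/(C₁ C₂)` -/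
def S_BZ : Prop := ∀ (T : ℚ → ℚ → ℚ → ℚ) (p : ℕ), Sym T → p.Prime → Van T p →
  (∀ A C : ℤ, A ≠ 0 → C ≠ 0 → A ≠ C → |A| < p → |C| < p → |C - A| < p →
    T p (A / C) (1 - A / C) = 0) ∧
  (∀ A C₁ C₂ : ℤ, A ≠ 0 → C₁ ≠ 0 → C₂ ≠ 0 → |A| < p → |C₁| < p → |C₂| < p →
    ¬ (p : ℤ) ∣ C₁ * C₂ - A → Sm p ((C₁ * C₂ - A : ℤ) : ℚ) →
    T p (A / (C₁ * C₂)) (1 - A / (C₁ * C₂)) = 0)

/-- [STEP] -/
def S_STEP : Prop := ∀ (T : ℚ → ℚ → ℚ → ℚ) (p : ℕ), Sym T → p.Prime → Van T p → Van T (p + 1)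

end Pool.Agent.Helper87K9.PL
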