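import Pool.Agent.Helper87K9.PL.Defs

set_option autoImplicit false

namespace Pool.Agent.Helper87K9.PL

/-- a function additive on the positive integers, zero for `c, d`, is zero for `c d` -/
theorem fin : S_BAS → S_STEP → ∀ T : ℚ → ℚ → ℚ → ℚ, Sym T →
    ∀ a b c : ℚ, a ≠ 0 → b ≠ 0 → c ≠ 0 → T a b c = 0 := by
  intro hB hSt T hT
  obtain ⟨h1, h2, -, -, -⟩ := hB T hT
  have m1 := hT.mul₁
  have m3 := hT.mul₃
  have m2 : ∀ a b b' c : ℚ, a ≠ 0 → b ≠ 0 → b' ≠ 0 → c ≠ 0 →
      T a (b * b') c = T a b c + T a b' c := by
    intro a b b' c ha hb hb' hc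
    rw [hT.symm, m1 b b' a c hb hb' ha hc, hT.symm b, hT.symm b']
  have q : ∀ n : ℕ, 0 < n → (n : ℚ) ≠ 0 := fun n hn => by exact_mod_cast hn.ne'
  have key : ∀ N, Van T N := by
    intro N
    induction N with
    | zero => intro a b c ha ha'; omega
    | succ N ih =>
      by_cases hp : N.Prime
      · exact hSt T N hT hp ih
      · rcases Nat.eq_zero_or_pos N with h0 | h0
        · subst h0
          intro a b c ha ha'
          omega
        · by_cases hN1 : N = 1
          · subst hN1
            intro a b c ha ha' hb hb' hc hc'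
            obtain rfl : a = 1 := by omega
            rw [Nat.cast_one]
            exact (h1 _ _ (q b hb) (q c hc)).1
          · obtain ⟨c, d, hc, hd, hcd⟩ : ∃ c d, c < N ∧ d < N ∧ c * d = N := by
              obtain ⟨c, hc1, hc2, hc3⟩ := (Nat.not_prime_iff_exists_dvd_lt (by omega)).1 hp
              obtain ⟨d, hd⟩ := hc1
              refine ⟨c, d, hc3, ?_, hd.symm⟩
              rw [hd]
              have : 0 < d := by
                apply Nat.pos_of_ne_zero
                rintro rfl
                omega
              nlinarith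
            have hc0 : 0 < c := Nat.pos_of_ne_zero (by rintro rfl; omega)
            have hd0 : 0 < d := Nat.pos_of_ne_zero (by rintro rfl; omega)
            -- extension of additive functions from `< N` to `< N + 1`
            have ext : ∀ f : ℚ → ℚ, (∀ x y : ℚ, x ≠ 0 → y ≠ 0 → f (x * y) = f x + f y) →
                (∀ n : ℕ, 0 < n → n < N → f n = 0) → ∀ n : ℕ, 0 < n → n < N + 1 → f n = 0 := by
              intro f hf hf' n hn hn'
              rcases Nat.lt_or_ge n N with h | h
              · exact hf' n hn h
              · obtain rfl : n = N := by omega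
                rw [← hcd, Nat.cast_mul, hf _ _ (q c hc0) (q d hd0), hf' c hc0 hc, hf' d hd0 hd,
                  add_zero]
            intro a b e ha ha' hb hb' he he'
            refine ext (fun x => T x b e) (fun x y hx hy => m1 x y b e hx hy (q b hb) (q e he))
              (fun n hn hn' => ?_) a ha ha'
            refine ext (fun x => T n x e) (fun x y hx hy => m2 n x y e (q n hn) hx hy (q e he))
              (fun k hk hk' => ?_) b hb hb'
            exact ext (fun x => T n k x) (fun x y hx hy => m3 n k x y (q n hn) (q k hk) hx hy)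
              (fun l hl hl' => ih n k l hn hn' hk hk' hl hl') e he he'
  have keyN : ∀ a b c : ℕ, 0 < a → 0 < b → 0 < c → T a b c = 0 := by
    intro a b c ha hb hc
    exact key (a + b + c + 1) a b c ha (by omega) hb (by omega) hc (by omega)
  -- from positive integers to nonzero rationals
  have ext : ∀ f : ℚ → ℚ, (∀ x y : ℚ, x ≠ 0 → y ≠ 0 → f (x * y) = f x + f y) →
      (∀ n : ℕ, 0 < n → f n = 0) → ∀ x : ℚ, x ≠ 0 → f x = 0 := by
    intro f hf hf' x hx
    have f1 : f 1 = 0 := by simpa using hf' 1 one_pos
    have fm : f (-1) = 0 := by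
      have := hf (-1) (-1) (by norm_num) (by norm_num)
      rw [show ((-1 : ℚ) * -1) = 1 by norm_num, f1] at this
      linarith
    have hd := x.den_pos
    have hd' : (x.den : ℚ) ≠ 0 := q _ hd
    have hn : x.num ≠ 0 := Rat.num_ne_zero.2 hx
    have hn' : 0 < x.num.natAbs := Int.natAbs_pos.2 hn
    have e1 : f (x * x.den) = f x + f x.den := hf _ _ hx hd'
    rw [hf' _ hd, add_zero, Rat.mul_den_eq_num] at e1
    rw [← e1]
    rcases le_or_gt 0 x.num with h | h
    · have : (x.num : ℚ) = (x.num.natAbs : ℕ) := by
        rw [← Int.cast_natCast, Int.natAbs_of_nonneg h]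
      rw [this]
      exact hf' _ hn'
    · have : (x.num : ℚ) = (-1) * (x.num.natAbs : ℕ) := by
        rw [← Int.cast_natCast, Int.ofNat_natAbs_of_nonpos h.le]
        push_cast
        ring
      rw [this, hf _ _ (by norm_num) (q _ hn'), fm, hf' _ hn', add_zero]
  intro a b c ha hb hc
  refine ext (fun x => T x b c) (fun x y hx hy => m1 x y b c hx hy hb hc) (fun n hn => ?_) a ha
  refine ext (fun x => T n x c) (fun x y hx hy => m2 n x y c (q n hn) hx hy hc)
    (fun k hk => ?_) b hb
  exact ext (fun x => T n k x) (fun x y hx hy => m3 n k x y (q n hn) (q k hk) hx hy)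
    (fun l hl => keyN n k l hn hk hl) c hc

end Pool.Agent.Helper87K9.PL
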