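import Pool.Agent.Helper87K9.PL.Defs

set_option autoImplicit false

/-!
# The five-term relation over a finite field [FIVE]
-/

namespace Pool.Agent.Helper87K9.PL

open Finset

/-- [FIVE] -/
theorem five : S_FIVE := by
  intro K _ _ _ β hinv hsub h5 x hx0 hx1
  -- sum over all `z ≠ 0, 1`
  let S : Finset K := (univ.erase 0).erase 1
  have hmem : ∀ z, z ∈ S ↔ z ≠ 0 ∧ z ≠ 1 := by
    intro z
    simp only [S, mem_erase, mem_univ, and_true]
    tauto
  have hS0 : ∑ z ∈ S, β z = 0 := by
    have h1 : ∑ z ∈ S, β z = ∑ z ∈ S, β z⁻¹ := by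
      refine Finset.sum_nbij' (fun z => z⁻¹) (fun z => z⁻¹) ?_ ?_ ?_ ?_ ?_
      · intro z hz
        rw [hmem] at hz ⊢
        exact ⟨inv_ne_zero hz.1, fun h => hz.2 (inv_eq_one.1 h)⟩
      · intro z hz
        rw [hmem] at hz ⊢
        exact ⟨inv_ne_zero hz.1, fun h => hz.2 (inv_eq_one.1 h)⟩
      · intro z _
        exact inv_inv z
      · intro z _
        exact inv_inv z
      · intro z _
        rw [inv_inv]
    have h2 : ∑ z ∈ S, β z⁻¹ = - ∑ z ∈ S, β z := by
      rw [← Finset.sum_neg_distrib]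
      refine Finset.sum_congr rfl fun z hz => ?_
      exact hinv z ((hmem z).1 hz).1 ((hmem z).1 hz).2
    linarith
  -- sums over `y ≠ 0, 1, x`
  have hsum : ∀ w ∈ S, ∑ z ∈ S.erase w, β z = - β w := by
    intro w hw
    have := Finset.add_sum_erase S β hw
    rw [hS0] at this
    linarith
  have hxS : x ∈ S := (hmem x).2 ⟨hx0, hx1⟩
  have hE : ∀ z, z ∈ S.erase x ↔ z ≠ 0 ∧ z ≠ 1 ∧ z ≠ x := by
    intro z
    rw [mem_erase, hmem]
    tauto
  have hx1' : 1 - x ≠ 0 := sub_ne_zero.2 (Ne.symm hx1)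
  have hxi0 : x⁻¹ ≠ 0 := inv_ne_zero hx0
  have hxi1 : x⁻¹ ≠ 1 := fun h => hx1 (inv_eq_one.1 h)
  have hxi1' : 1 - x⁻¹ ≠ 0 := sub_ne_zero.2 (Ne.symm hxi1)
  have s1 := hsum x hxS
  -- `y / x`
  have s2 : ∑ y ∈ S.erase x, β (y / x) = - β x⁻¹ := by
    rw [← hsum x⁻¹ ((hmem _).2 ⟨hxi0, hxi1⟩)]
    refine Finset.sum_nbij' (fun y => y / x) (fun z => z * x) ?_ ?_ ?_ ?_ ?_
    · intro y hy
      rw [hE] at hy
      rw [mem_erase, hmem]
      refine ⟨?_, div_ne_zero hy.1 hx0, ?_⟩
      · intro h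
        apply hy.2.1
        field_simp at h
        exact h
      · intro h
        exact hy.2.2 ((div_eq_one_iff_eq hx0).1 h)
    · intro z hz
      rw [mem_erase, hmem] at hz
      rw [hE]
      refine ⟨mul_ne_zero hz.2.1 hx0, ?_, ?_⟩
      · intro h
        exact hz.1 (eq_inv_of_mul_eq_one_left h)
      · intro h
        exact hz.2.2 (mul_right_cancel₀ hx0 (h.trans (one_mul x).symm))
    · intro y _
      exact div_mul_cancel₀ y hx0
    · intro z _
      exact mul_div_cancel_right₀ z hx0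
    · intro y _
      rfl
  -- general: `c / (1 - φ y)`
  have s3 : ∑ y ∈ S.erase x, β ((1 - x) / (1 - y)) = - β (1 - x) := by
    rw [← hsum (1 - x) ((hmem _).2 ⟨hx1', fun h => hx0 (by linear_combination -h)⟩)]
    refine Finset.sum_nbij' (fun y => (1 - x) / (1 - y)) (fun z => 1 - (1 - x) / z) ?_ ?_ ?_ ?_ ?_
    · intro y hy
      rw [hE] at hy
      have hy1 : 1 - y ≠ 0 := sub_ne_zero.2 (Ne.symm hy.2.1)
      rw [mem_erase, hmem]
      refine ⟨?_, div_ne_zero hx1' hy1, ?_⟩
      · intro h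
        rw [div_eq_iff hy1] at h
        have h2 : (1 - x) * y = 0 := by linear_combination h
        rcases mul_eq_zero.1 h2 with h3 | h3
        · exact hx1' h3
        · exact hy.1 h3
      · intro h
        rw [div_eq_one_iff_eq hy1] at h
        exact hy.2.2 (by linear_combination h)
    · intro z hz
      rw [mem_erase, hmem] at hz
      rw [hE]
      refine ⟨?_, ?_, ?_⟩
      · intro h
        apply hz.1
        have h2 : (1 - x) / z = 1 := by linear_combination -h
        rw [div_eq_one_iff_eq hz.2.1] at h2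
        exact h2.symm
      · intro h
        have h2 : (1 - x) / z = 0 := by linear_combination -h
        exact (div_ne_zero hx1' hz.2.1) h2
      · intro h
        have h2 : (1 - x) / z = 1 - x := by linear_combination -h
        rw [div_eq_iff hz.2.1] at h2
        exact hz.2.2 (mul_left_cancel₀ hx1' (by linear_combination -h2))
    · intro y hy
      rw [hE] at hy
      have hy1 : 1 - y ≠ 0 := sub_ne_zero.2 (Ne.symm hy.2.1)
      field_simp
      ring
    · intro z hz
      rw [mem_erase, hmem] at hz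
      have := hz.2.1
      have h3 : 1 - (1 - (1 - x) / z) = (1 - x) / z := by ring
      rw [h3]
      field_simp
    · intro y _
      rfl
  have s4 : ∑ y ∈ S.erase x, β ((1 - x⁻¹) / (1 - y⁻¹)) = - β (1 - x⁻¹) := by
    rw [← hsum (1 - x⁻¹) ((hmem _).2 ⟨hxi1', fun h => hxi0 (by linear_combination -h)⟩)]
    refine Finset.sum_nbij' (fun y => (1 - x⁻¹) / (1 - y⁻¹)) (fun z => (1 - (1 - x⁻¹) / z)⁻¹)
      ?_ ?_ ?_ ?_ ?_
    · intro y hy
      rw [hE] at hy
      have hyi : y⁻¹ ≠ 1 := fun h => hy.2.1 (inv_eq_one.1 h)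
      have hy1 : 1 - y⁻¹ ≠ 0 := sub_ne_zero.2 (Ne.symm hyi)
      rw [mem_erase, hmem]
      refine ⟨?_, div_ne_zero hxi1' hy1, ?_⟩
      · intro h
        rw [div_eq_iff hy1] at h
        have h2 : (1 - x⁻¹) * y⁻¹ = 0 := by linear_combination h
        rcases mul_eq_zero.1 h2 with h3 | h3
        · exact hxi1' h3
        · exact inv_ne_zero hy.1 h3
      · intro h
        rw [div_eq_one_iff_eq hy1] at h
        exact hy.2.2 (inv_injective (by linear_combination h))
    · intro z hz
      rw [mem_erase, hmem] at hz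
      have h6 : 1 - (1 - x⁻¹) / z ≠ 0 := by
        intro h
        apply hz.1
        have h2 : (1 - x⁻¹) / z = 1 := by linear_combination -h
        rw [div_eq_one_iff_eq hz.2.1] at h2
        exact h2.symm
      rw [hE]
      refine ⟨inv_ne_zero h6, ?_, ?_⟩
      · intro h
        have h2 : (1 - x⁻¹) / z = 0 := by
          have := inv_eq_one.1 h
          linear_combination -this
        exact (div_ne_zero hxi1' hz.2.1) h2
      · intro h
        have h7 : 1 - (1 - x⁻¹) / z = x⁻¹ := inv_injective (h.trans (inv_inv x).symm)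
        have h2 : (1 - x⁻¹) / z = 1 - x⁻¹ := by linear_combination -h7
        rw [div_eq_iff hz.2.1] at h2
        exact hz.2.2 (mul_left_cancel₀ hxi1' (by linear_combination -h2))
    · intro y hy
      rw [hE] at hy
      have hyi : y⁻¹ ≠ 1 := fun h => hy.2.1 (inv_eq_one.1 h)
      have hy1 : 1 - y⁻¹ ≠ 0 := sub_ne_zero.2 (Ne.symm hyi)
      have h7 : 1 - (1 - x⁻¹) / ((1 - x⁻¹) / (1 - y⁻¹)) = y⁻¹ := by
        rw [div_div_cancel₀ hxi1']
        ring
      rw [h7, inv_inv]
    · intro z hz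
      rw [mem_erase, hmem] at hz
      have h3 : 1 - (1 - (1 - x⁻¹) / z) = (1 - x⁻¹) / z := by ring
      rw [inv_inv, h3, div_div_cancel₀ hxi1']
    · intro y _
      rfl
  -- the total
  have htot : ∑ y ∈ S.erase x, (β x - β y + β (y / x) - β ((1 - x⁻¹) / (1 - y⁻¹)) +
      β ((1 - x) / (1 - y))) = 0 := by
    refine Finset.sum_eq_zero fun y hy => ?_
    rw [hE] at hy
    exact h5 x y hx0 hx1 hy.1 hy.2.1 (Ne.symm hy.2.2)
  rw [Finset.sum_add_distrib, Finset.sum_sub_distrib, Finset.sum_add_distrib,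
    Finset.sum_sub_distrib, Finset.sum_const, s1, s2, s3, s4, nsmul_eq_mul] at htot
  have b1 := hinv x hx0 hx1
  have b2 := hsub x hx0 hx1
  have b3 := hsub x⁻¹ hxi0 hxi1
  rw [b3, b2, b1] at htot
  have hc : (0 : ℚ) ≤ ((S.erase x).card : ℚ) := Nat.cast_nonneg _
  have h6 : (((S.erase x).card : ℚ) + 4) * β x = 0 := by linarith
  exact (mul_eq_zero.1 h6).resolve_left (by positivity)

end Pool.Agent.Helper87K9.PL
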