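import Pool.Agent.Helper87K9.PL.GDefs
import Pool.Agent.Helper87K9.PL.Asm
import Pool.Agent.H39R2.GonP.Bridge

set_option autoImplicit false

namespace Pool.Agent.Helper87K9.PL

open GonP
open scoped TensorProduct

variable {F : Type} [Field F]

theorem map_ImD (j : ℕ) :
    (ImD F j).map (eT F 0 (j + 1)).toLinearMap = ImLast F j := by
  unfold ImD ImLast
  rw [Submodule.map_span]
  congr 1
  ext u
  simp only [Set.mem_image, Set.mem_ofPred_eq]
  constructor
  · rintro ⟨_, ⟨x, y, hx, rfl⟩, rfl⟩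
    exact ⟨x, y, hx, eT_tq 0 (j + 1) _ _⟩
  · rintro ⟨x, y, hx, rfl⟩
    exact ⟨_, ⟨x, y, hx, rfl⟩, eT_tq 0 (j + 1) _ _⟩

theorem eT_bloch (j : ℕ) (α : ZP F) (y : Fin j → UV F) :
    eT F 0 j (toRat (tm (toQuo (R 2 F) α) (wedge y))) =
      (1 : ℚ) ⊗ₜ[ℤ] ((H39Gon.R 2 F).mkQ α ⊗ₜ[ℤ] exteriorPower.ιMulti ℤ j y) := by
  unfold eT
  rw [← eL_wedge]
  rfl

theorem map_BlochP (j : ℕ) :
    (BlochP F j).map (eT F 0 j).toLinearMap = BlochPart F j := by
  unfold BlochP BlochPart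
  rw [Submodule.map_span]
  congr 1
  ext u
  simp only [Set.mem_image, Set.mem_ofPred_eq]
  constructor
  · rintro ⟨_, ⟨α, y, hα, rfl⟩, rfl⟩
    refine ⟨α, y, ?_, eT_bloch j α y⟩
    rw [A2_eq] at hα
    exact hα
  · rintro ⟨α, y, hα, rfl⟩
    refine ⟨_, ⟨α, y, ?_, rfl⟩, eT_bloch j α y⟩
    rw [A2_eq]
    exact hα

/-- transport of the last differential -/
noncomputable def toH {j : ℕ} (e : TQ F 2 j → LQ F (j + 2)) (he : IsLinearMap ℚ e) :
    H39Gon.TQ F 2 j →ₗ[ℚ] H39Gon.LQ F (j + 2) :=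
  (eLQ F (j + 2)).toLinearMap ∘ₗ (he.mk' e) ∘ₗ (eT F 0 j).symm.toLinearMap

theorem toH_apply {j : ℕ} (e : TQ F 2 j → LQ F (j + 2)) (he : IsLinearMap ℚ e) (u : TQ F 2 j) :
    toH e he (eT F 0 j u) = eLQ F (j + 2) (e u) := by
  simp [toH]

theorem toH_last {j : ℕ} (e : TQ F 2 j → LQ F (j + 2)) (he : IsE j e) :
    IsLast j (toH e he.1) := by
  obtain ⟨h0, h1, h2, h3, h4⟩ := he
  refine ⟨fun y => ?_, fun y => ?_, fun y => ?_, fun x y hx hx1 => ?_⟩
  · rw [show H39Gon.tq F 2 j none y = eT F 0 j (tq 2 j none y) from (eT_tq 0 j none y).symm,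
      toH_apply, h1, map_zero]
  · rw [show H39Gon.tq F 2 j (some 0) y = eT F 0 j (tq 2 j (some 0) y) from
      (eT_tq 0 j (some 0) y).symm, toH_apply, h2, map_zero]
  · rw [show H39Gon.tq F 2 j (some 1) y = eT F 0 j (tq 2 j (some 1) y) from
      (eT_tq 0 j (some 1) y).symm, toH_apply, h3, map_zero]
  · rw [show H39Gon.tq F 2 j (some x) y = eT F 0 j (tq 2 j (some x) y) from
      (eT_tq 0 j (some x) y).symm, toH_apply, h4 x y hx hx1]
    exact eLQ_lq (j + 2) _

theorem ker_e (hF : H39Gon.SpanDual F 1) (j : ℕ) (e : TQ F 2 (j + 1) → LQ F (j + 3))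
    (he : IsE (j + 1) e) (u : TQ F 2 (j + 1)) : e u = 0 ↔ u ∈ ImD F j ⊔ BlochP F (j + 1) := by
  have h1 := ker_last hF j (toH e he.1) (toH_last e he)
  rw [← map_ImD, ← map_BlochP, ← Submodule.map_sup] at h1
  have h2 : e u = 0 ↔ toH e he.1 (eT F 0 (j + 1) u) = 0 := by
    rw [toH_apply]
    exact (LinearEquiv.map_eq_zero_iff _).symm
  rw [h2, ← LinearMap.mem_ker, h1]
  constructor
  · rintro ⟨v, hv, hv'⟩
    have : v = u := (eT F 0 (j + 1)).injective hv'
    rwa [← this]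
  · intro hu
    exact ⟨u, hu, rfl⟩

theorem exists_e (F : Type) [Field F] (j : ℕ) : ∃! e : TQ F 2 j → LQ F (j + 2), IsE j e := by
  obtain ⟨e, he, -⟩ := exists_last F j
  refine ⟨fun x => (eLQ F (j + 2)).symm (e (eT F 0 j x)), ?_, ?_⟩
  · refine ⟨⟨fun x y => ?_, fun c x => ?_⟩, fun y => ?_, fun y => ?_, fun y => ?_,
      fun x y hx hx1 => ?_⟩
    · rw [map_add, map_add, map_add]
    · rw [map_smul, map_smul, map_smul]
    · beta_reduce
      rw [show eT F 0 j (tq 2 j none y) = H39Gon.tq F 2 j none y from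
        eT_tq 0 j none y, he.1, map_zero]
    · beta_reduce
      rw [show eT F 0 j (tq 2 j (some 0) y) = H39Gon.tq F 2 j (some 0) y from
        eT_tq 0 j (some 0) y, he.2.1, map_zero]
    · beta_reduce
      rw [show eT F 0 j (tq 2 j (some 1) y) = H39Gon.tq F 2 j (some 1) y from
        eT_tq 0 j (some 1) y, he.2.2.1, map_zero]
    · beta_reduce
      rw [show eT F 0 j (tq 2 j (some x) y) = H39Gon.tq F 2 j (some x) y from
        eT_tq 0 j (some x) y, he.2.2.2 _ _ hx hx1]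
      exact eLQ_symm_lq (j + 2) _
  · intro e' b
    have a : IsE j (fun x => (eLQ F (j + 2)).symm (e (eT F 0 j x))) := by
      refine ⟨⟨fun x y => ?_, fun c x => ?_⟩, fun y => ?_, fun y => ?_, fun y => ?_,
        fun x y hx hx1 => ?_⟩
      · rw [map_add, map_add, map_add]
      · rw [map_smul, map_smul, map_smul]
      · beta_reduce
        rw [show eT F 0 j (tq 2 j none y) = H39Gon.tq F 2 j none y from
          eT_tq 0 j none y, he.1, map_zero]
      · beta_reduce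
        rw [show eT F 0 j (tq 2 j (some 0) y) = H39Gon.tq F 2 j (some 0) y from
          eT_tq 0 j (some 0) y, he.2.1, map_zero]
      · beta_reduce
        rw [show eT F 0 j (tq 2 j (some 1) y) = H39Gon.tq F 2 j (some 1) y from
          eT_tq 0 j (some 1) y, he.2.2.1, map_zero]
      · beta_reduce
        rw [show eT F 0 j (tq 2 j (some x) y) = H39Gon.tq F 2 j (some x) y from
          eT_tq 0 j (some x) y, he.2.2.2 _ _ hx hx1]
        exact eLQ_symm_lq (j + 2) _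
    apply text_P 0 j _ _ b.1 a.1
    intro x y
    rcases x with _ | x
    · exact (b.2.1 y).trans (a.2.1 y).symm
    · by_cases hx : x = 0
      · subst hx; exact (b.2.2.1 y).trans (a.2.2.1 y).symm
      · by_cases hx1 : x = 1
        · subst hx1; exact (b.2.2.2.1 y).trans (a.2.2.2.1 y).symm
        · exact (b.2.2.2.2 x y hx hx1).trans (a.2.2.2.2 x y hx hx1).symm

/-- a differential `d`, if there is one, has image `ImD` -/
theorem range_d (j : ℕ) (d : TQ F 3 j → TQ F 2 (j + 1)) (hd : IsD 0 j d) (u : TQ F 2 (j + 1)) :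
    u ∈ ImD F j ↔ ∃ v, d v = u := by
  obtain ⟨h0, h1, h2, h3⟩ := hd
  let d' : H39Gon.TQ F 3 j →ₗ[ℚ] H39Gon.TQ F 2 (j + 1) :=
    (eT F 0 (j + 1)).toLinearMap ∘ₗ (h0.mk' d) ∘ₗ (eT F 1 j).symm.toLinearMap
  have hd' : ∀ v, d' (eT F 1 j v) = eT F 0 (j + 1) (d v) := by
    intro v
    simp [d']
  have h4 : IsLastButOne j d' := by
    refine ⟨fun y => ?_, fun y => ?_, fun x y hx => ?_⟩
    · rw [show H39Gon.tq F 3 j none y = eT F 1 j (tq 3 j none y) from (eT_tq 1 j none y).symm,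
        hd', h1, map_zero]
    · rw [show H39Gon.tq F 3 j (some 0) y = eT F 1 j (tq 3 j (some 0) y) from
        (eT_tq 1 j (some 0) y).symm, hd', h2, map_zero]
    · rw [show H39Gon.tq F 3 j (some x) y = eT F 1 j (tq 3 j (some x) y) from
        (eT_tq 1 j (some x) y).symm, hd', h3 x y hx]
      exact eT_tq 0 (j + 1) _ _
  have h5 := range_lbo j d' h4
  rw [← map_ImD] at h5
  constructor
  · intro hu
    have h6 : eT F 0 (j + 1) u ∈ LinearMap.range d' := by
      rw [h5]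
      exact ⟨u, hu, rfl⟩
    obtain ⟨v, hv⟩ := h6
    refine ⟨(eT F 1 j).symm v, (eT F 0 (j + 1)).injective ?_⟩
    rw [← hd', LinearEquiv.apply_symm_apply]
    exact hv
  · rintro ⟨v, rfl⟩
    have h6 : d' (eT F 1 j v) ∈ (ImD F j).map (eT F 0 (j + 1)).toLinearMap := by
      rw [← h5]
      exact ⟨_, rfl⟩
    obtain ⟨w, hw, hw'⟩ := h6
    rw [hd'] at hw'
    have : w = d v := (eT F 0 (j + 1)).injective hw'
    rwa [← this]

end Pool.Agent.Helper87K9.PL
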