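import Pool.Agent.H39R2.GonP.Defs

set_option autoImplicit false

/-!
# Two subspaces of the degree `n - 1` terms of Goncharov's complexes `Γ(F,n) ⊗ ℚ`

The groups `B_n(F)`, the terms `TQ F m j = (B_m(F) ⊗ Λ^j F^*) ⊗ ℚ` and the elements
`tq m j x y = ({x}_m ⊗ y_1 ∧ ... ∧ y_j) ⊗ 1` are defined in `Pool/Agent/H39R2/GonP/Defs.lean`.
-/

namespace Pool.Agent.Helper87K9.PL

open GonP

/-- The image of the differential `(B_3(F) ⊗ Λ^j F^*)_ℚ → (B_2(F) ⊗ Λ^{j+1} F^*)_ℚ` of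
`Γ(F, j + 3) ⊗ ℚ`: the subspace spanned by the elements `{x}_2 ⊗ x ∧ y_1 ∧ ... ∧ y_j`. -/
noncomputable def ImD (F : Type) [Field F] (j : ℕ) : Submodule ℚ (TQ F 2 (j + 1)) :=
  Submodule.span ℚ {u | ∃ (x : F) (y : Fin j → UV F), x ≠ 0 ∧
    u = tq 2 (j + 1) (some x) (Fin.cons (cl x) y)}

/-- The subspace of `(B_2(F) ⊗ Λ^j F^*)_ℚ` spanned by the elements `β ⊗ y_1 ∧ ... ∧ y_j`, `β` in the
Bloch group `ker (δ_2 : B_2(F) → Λ^2 F^*)`. -/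
noncomputable def BlochP (F : Type) [Field F] (j : ℕ) : Submodule ℚ (TQ F 2 j) :=
  Submodule.span ℚ {u | ∃ (α : ZP F) (y : Fin j → UV F), α ∈ A2 F ∧
    u = toRat (tm (toQuo (R 2 F) α) (wedge y))}

end Pool.Agent.Helper87K9.PL
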