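import Pool.Agent.Helper87K9.PL.Alt

set_option autoImplicit false

/-!
# The invariance of `T(p, x; 1 - x)` [RTWO]
-/

namespace Pool.Agent.Helper87K9.PL

/-- (F1) -/
theorem F1 (hB : S_BAS) {T : ℚ → ℚ → ℚ → ℚ} {p : ℕ} (hT : Sym T) (hp : p.Prime) (hV : Van T p)
    {w θ : ℚ} (hw : Sm p w) (hθ : Sm p θ) (h : 1 - w = p * θ) : T p p w + 2 * T p θ w = 0 := by
  have hp0 : (p : ℚ) ≠ 0 := by exact_mod_cast hp.ne_zero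
  have hf0 : (p : ℚ) * θ ≠ 0 := mul_ne_zero hp0 hθ.ne
  have hf1 : (p : ℚ) * θ ≠ 1 := by
    intro h1
    rw [h1] at h
    exact hw.ne (by linarith)
  have h1 := hT.sym (p * θ) hf0 hf1
  have h2 : 1 - (p : ℚ) * θ = w := by linarith
  rw [h2, hT.mul₁ _ _ _ _ hp0 hθ.ne hf0 hw.ne, hT.mul₂ _ _ _ _ hp0 hp0 hθ.ne hw.ne,
    hT.mul₂ _ _ _ _ hθ.ne hp0 hθ.ne hw.ne, van_Sm hB hT hV hθ hθ hw, hT.symm θ p w] at h1
  linarith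

/-- [RTWO] -/
theorem rtwo (hB : S_BAS) (hA : S_ALT) : S_RTWO := by
  intro T p hT hp hV x w θ hx hx1 hw hθ h hc
  have hp0 : (p : ℚ) ≠ 0 := by exact_mod_cast hp.ne_zero
  have A := hA T p hT hp hV
  obtain ⟨c, hcd⟩ : ∃ c, c = 1 - x * w := ⟨_, rfl⟩
  obtain ⟨y, hyd⟩ : ∃ y, y = 1 - x := ⟨_, rfl⟩
  rw [← hcd] at hc
  rw [← hyd] at hx1
  have a1 := F1 hB hT hp hV hw hθ h
  have a2 := F1 hB hT hp hV (hx1.mul hc.inv) ((hx.mul hθ).mul hc.inv) (by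
    have := hc.ne
    field_simp
    rw [hcd, hyd]
    linear_combination x * h)
  have a3 := F1 hB hT hp hV (hw.mul (hx1.mul hc.inv)) (hθ.mul hc.inv) (by
    have := hc.ne
    field_simp
    rw [hcd, hyd]
    linear_combination h)
  have n1 := hx.ne
  have n2 := hw.ne
  have n3 := hθ.ne
  have n4 := hc.ne
  have n5 := hx1.ne
  have n6 := inv_ne_zero n4
  have n7 := mul_ne_zero n5 n6
  have n8 := mul_ne_zero n1 n3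
  rw [hT.mul₃ _ _ _ _ hp0 hp0 n2 n7] at a3
  simp only [hT.mul₂ _ _ _ _ hp0 n3 n6 (mul_ne_zero n2 n7), hT.mul₂ _ _ _ _ hp0 n8 n6 n7,
    hT.mul₂ _ _ _ _ hp0 n1 n3 n7, hT.mul₃ _ _ _ _ hp0 n3 n2 n7, hT.mul₃ _ _ _ _ hp0 n6 n2 n7,
    hT.mul₃ _ _ _ _ hp0 n3 n5 n6, hT.mul₃ _ _ _ _ hp0 n6 n5 n6, hT.mul₃ _ _ _ _ hp0 n1 n5 n6,
    inv₂ hB hT hp0 n4 n2, inv₂ hB hT hp0 n4 n5, inv₂ hB hT hp0 n4 n6, inv₃ hB hT hp0 n3 n4,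
    inv₃ hB hT hp0 n1 n4, inv₃ hB hT hp0 n4 n4] at a2 a3
  rw [← hcd, ← hyd, hT.mul₂ _ _ _ _ hp0 n1 n2 n4]
  have a4 := A w c hw hc
  linarith

end Pool.Agent.Helper87K9.PL
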