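import Pool.Agent.Helper87K9.PL.Alt

/-!
# Weight 3 symbols on `ℚ^*`: the induction step [STEP]
-/

set_option autoImplicit false

namespace Pool.Agent.Helper87K9.PL

/-- [STEP] -/
theorem step : S_BAS → S_ALT → S_BZ → S_TATE → S_STEP := by
  intro hB hA hZ hTate T p hT hp hV
  have hpf := Fact.mk hp
  have hp0 : (p : ℚ) ≠ 0 := by exact_mod_cast hp.ne_zero
  have hc : ∀ {n : ℕ}, 0 < n → (n : ℚ) ≠ 0 := fun h => by
    have : (0 : ℚ) < _ := Nat.cast_pos.2 h
    exact this.ne'
  have alt := hA T p hT hp hV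
  have m1 : ∀ a x x' y : ℚ, a ≠ 0 → x ≠ 0 → x' ≠ 0 → y ≠ 0 →
      T a (x * x') y = T a x y + T a x' y := fun a x x' y ha h h' h'' => hT.mul₂ a x x' y ha h h' h''
  have m3 : ∀ a x y y' : ℚ, a ≠ 0 → x ≠ 0 → y ≠ 0 → y' ≠ 0 →
      T a x (y * y') = T a x y + T a x y' := fun a x y y' ha h h' h'' => hT.mul₃ a x y y' ha h h' h''
  -- `T p = 0` on pairs of integers `< p`
  have hb0 : ∀ m n : ℕ, 0 < m → m < p → 0 < n → n < p → T p m n = 0 := by
    intro m n hm hmp hn hnp
    have key := hTate p (fun m n => (T p m n - T p n m) / 2) ?_ ?_ ?_ m n hm hmp hn hnp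
    · have h1 := alt m n (Sm.nat hm hmp) (Sm.nat hn hnp)
      linarith
    · intro m m' n hm hm' hn
      push_cast
      rw [m1 _ _ _ _ hp0 (hc hm) (hc hm') (hc hn), m3 _ _ _ _ hp0 (hc hn) (hc hm) (hc hm')]
      ring
    · intro m n _ _
      ring
    · intro l R₁ R₂ R₃ S hl hlp h1 h1' h2 h2' h3 h3' hS hS' heq
      have eb : ∀ m n : ℕ, 0 < m → m < p → 0 < n → n < p →
          (T p m n - T p n m) / 2 = T p m n := by
        intro m n hm hmp hn hnp
        have h1 := alt m n (Sm.nat hm hmp) (Sm.nat hn hnp)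
        linarith
      rw [eb R₃ l h3 (by omega) hl.pos hlp, eb R₃ S h3 (by omega) hS (by omega),
        eb R₃ R₁ h3 (by omega) h1 (by omega), eb R₃ R₂ h3 (by omega) h2 (by omega),
        eb R₁ l h1 (by omega) hl.pos hlp, eb R₁ S h1 (by omega) hS (by omega),
        eb R₁ R₁ h1 (by omega) h1 (by omega), eb R₁ R₂ h1 (by omega) h2 (by omega),
        eb R₂ l h2 (by omega) hl.pos hlp, eb R₂ S h2 (by omega) hS (by omega),
        eb R₂ R₁ h2 (by omega) h1 (by omega), eb R₂ R₂ h2 (by omega) h2 (by omega)]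
      have hz : ((R₁ : ℤ) * R₂ - R₃ : ℤ) = l * S := by
        have : ((R₁ * R₂ : ℕ) : ℤ) = ((l * S + R₃ : ℕ) : ℤ) := by rw [heq]
        push_cast at this
        linarith
      have h := (hZ T p hT hp hV).2 R₃ R₁ R₂ (by omega) (by omega) (by omega)
        (by rw [abs_of_nonneg (by omega)]; omega) (by rw [abs_of_nonneg (by omega)]; omega)
        (by rw [abs_of_nonneg (by omega)]; omega)
        (by
          rw [hz]
          intro hd
          have hd' : p ∣ l * S := by exact_mod_cast hd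
          rcases hp.dvd_mul.1 hd' with h | h
          · exact absurd (Nat.le_of_dvd hl.pos h) (by omega)
          · exact absurd (Nat.le_of_dvd hS h) (by omega))
        (by
          rw [hz]
          push_cast
          exact (Sm.nat hl.pos hlp).mul (Sm.nat hS (by omega)))
      have e1 : (1 : ℚ) - ((R₃ : ℤ) : ℚ) / (((R₁ : ℤ) : ℚ) * ((R₂ : ℤ) : ℚ)) =
          ((l : ℚ) * S) / ((R₁ : ℚ) * R₂) := by
        have h5 : (R₁ : ℚ) * R₂ - R₃ = l * S := by exact_mod_cast hz
        have := hc h1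
        have := hc h2
        push_cast
        rw [← h5]
        field_simp
      have e2 : ((R₃ : ℤ) : ℚ) / (((R₁ : ℤ) : ℚ) * ((R₂ : ℤ) : ℚ)) =
          ((R₃ : ℚ) * 1) / ((R₁ : ℚ) * R₂) := by push_cast; rw [mul_one]
      have hl0 := hc hl.pos
      have hS0 := hc hS
      have hR1 := hc h1
      have hR2 := hc h2
      have hR3 := hc h3
      rw [e1, e2, T_quad hB hT hp0 hR3 one_ne_zero hR1 hR2
        (div_ne_zero (mul_ne_zero hl0 hS0) (mul_ne_zero hR1 hR2)),
        T_quad₃ hB hT hp0 hl0 hS0 hR1 hR2 hR3, T_quad₃ hB hT hp0 hl0 hS0 hR1 hR2 one_ne_zero,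
        T_quad₃ hB hT hp0 hl0 hS0 hR1 hR2 hR1, T_quad₃ hB hT hp0 hl0 hS0 hR1 hR2 hR2] at h
      have t1 : ∀ y : ℚ, y ≠ 0 → T p 1 y = 0 := by
        intro y hy
        have := m1 p 1 1 y hp0 one_ne_zero one_ne_zero hy
        rw [one_mul] at this
        linarith
      rw [t1 _ hl0, t1 _ hS0, t1 _ hR1, t1 _ hR2] at h
      linarith
  -- `T p = 0` on small numbers
  have hP : ∀ x y : ℚ, Sm p x → Sm p y → T p x y = 0 := by
    intro x y hx hy
    refine Sm.ind (fun x => T p x y) (fun x x' h h' => m1 _ _ _ _ hp0 h h' hy.ne)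
      (fun x h => inv₂ hB hT hp0 h hy.ne) (fun x h => neg₂ hB hT hp0 h hy.ne) ?_ x hx
    intro n hn hnp
    refine Sm.ind (fun y => T p n y) (fun y y' h h' => m3 _ _ _ _ hp0 (hc hn) h h')
      (fun y h => inv₃ hB hT hp0 (hc hn) h) (fun y h => neg₃ hB hT hp0 (hc hn) h) ?_ y hy
    exact fun m hm hmp => hb0 n m hn hnp hm hmp
  -- `T p p w = 0` when `1 - w = p θ`
  have hw0 : ∀ w θ : ℚ, Sm p w → Sm p θ → 1 - w = p * θ → T p p w = 0 := by
    intro w θ hw hθ h
    have hf0 : (p : ℚ) * θ ≠ 0 := mul_ne_zero hp0 hθ.ne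
    have h1 := hT.sym (p * θ) hf0 (by
      intro h2
      rw [← h] at h2
      exact hw.ne (by linarith))
    have h3 : 1 - (p : ℚ) * θ = w := by linarith
    rw [h3, hT.mul₁ _ _ _ _ hp0 hθ.ne hf0 hw.ne, m1 _ _ _ _ hp0 hp0 hθ.ne hw.ne,
      m1 _ _ _ _ hθ.ne hp0 hθ.ne hw.ne, hT.symm θ p w, hP θ w hθ hw,
      van_Sm hB hT hV hθ hθ hw] at h1
    linarith
  -- the function `n ↦ T p p n` on residue classes
  have hpp : ∀ n : ℕ, 0 < n → n < p → T p p n = 0 := by
    have hval0 : ∀ x : (ZMod p)ˣ, 0 < (x : ZMod p).val := by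
      intro x
      refine Nat.pos_of_ne_zero fun h => x.ne_zero ?_
      exact (ZMod.val_eq_zero _).1 h
    have hvalp : ∀ x : (ZMod p)ˣ, (x : ZMod p).val < p := fun x => ZMod.val_lt _
    have hmul : ∀ x y : (ZMod p)ˣ, T p p ((x * y : (ZMod p)ˣ) : ZMod p).val =
        T p p (x : ZMod p).val + T p p (y : ZMod p).val := by
      intro x y
      obtain ⟨a, ha⟩ : ∃ a, a = (x : ZMod p).val := ⟨_, rfl⟩
      obtain ⟨b, hb⟩ : ∃ b, b = (y : ZMod p).val := ⟨_, rfl⟩
      obtain ⟨r, hr⟩ : ∃ r, r = ((x * y : (ZMod p)ˣ) : ZMod p).val := ⟨_, rfl⟩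
      have ha0 := hval0 x
      have hb0 := hval0 y
      have hr0 := hval0 (x * y)
      have hap := hvalp x
      have hbp := hvalp y
      have hrp := hvalp (x * y)
      rw [← ha] at ha0 hap
      rw [← hb] at hb0 hbp
      rw [← hr] at hr0 hrp
      rw [← ha, ← hb, ← hr]
      have hrab : r = a * b % p := by
        rw [hr, Units.val_mul, ZMod.val_mul, ← ha, ← hb]
      have hdm := Nat.div_add_mod (a * b) p
      rw [← hrab] at hdm
      obtain ⟨s, hs⟩ : ∃ s, s = a * b / p := ⟨_, rfl⟩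
      rw [← hs] at hdm
      have haq := hc ha0
      have hbq := hc hb0
      have hrq := hc hr0
      have hdq : (p : ℚ) * s + r = a * b := by exact_mod_cast hdm
      have hw : T p p ((r : ℚ) * 1 / (a * b)) = 0 := by
        rcases Nat.eq_zero_or_pos s with h0 | h0
        · rw [h0] at hdq
          have h5 : (r : ℚ) * 1 / (a * b) = 1 := by
            rw [← hdq]
            field_simp
            ring
          rw [h5]
          have := m3 p p 1 1 hp0 hp0 one_ne_zero one_ne_zero
          rw [one_mul] at this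
          linarith
        · have hsp : s < p := by
            rw [hs]
            refine Nat.div_lt_of_lt_mul ?_
            exact Nat.mul_lt_mul_of_lt_of_lt hap hbp
          refine hw0 _ ((s : ℚ) / (a * b)) ?_ ?_ ?_
          · rw [mul_one]
            exact (Sm.nat hr0 hrp).div ((Sm.nat ha0 hap).mul (Sm.nat hb0 hbp))
          · exact (Sm.nat h0 hsp).div ((Sm.nat ha0 hap).mul (Sm.nat hb0 hbp))
          · field_simp
            linarith
      rw [T_quad₃ hB hT hp0 hrq one_ne_zero haq hbq hp0] at hw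
      have t1 : T p p 1 = 0 := by
        have := m3 p p 1 1 hp0 hp0 one_ne_zero one_ne_zero
        rw [one_mul] at this
        linarith
      rw [t1] at hw
      linarith
    have hone : T p p ((1 : (ZMod p)ˣ) : ZMod p).val = 0 := by
      have := hmul 1 1
      rw [mul_one] at this
      linarith
    have hpow : ∀ (x : (ZMod p)ˣ) (k : ℕ), T p p ((x ^ k : (ZMod p)ˣ) : ZMod p).val =
        k * T p p (x : ZMod p).val := by
      intro x k
      induction k with
      | zero => rw [pow_zero, hone]; simp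
      | succ k ih =>
        rw [pow_succ, hmul, ih]
        push_cast
        ring
    intro n hn hnp
    have hnz : (n : ZMod p) ≠ 0 := by
      rw [Ne, ZMod.natCast_eq_zero_iff]
      exact fun h => absurd (Nat.le_of_dvd hn h) (by omega)
    have h1 := hpow (Units.mk0 (n : ZMod p) hnz) (orderOf (Units.mk0 (n : ZMod p) hnz))
    rw [pow_orderOf_eq_one, hone] at h1
    have h2 : ((Units.mk0 (n : ZMod p) hnz : (ZMod p)ˣ) : ZMod p).val = n := by
      rw [Units.val_mk0, ZMod.val_natCast, Nat.mod_eq_of_lt hnp]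
    rw [h2] at h1
    rcases mul_eq_zero.1 h1.symm with h3 | h3
    · exfalso
      have h4 := orderOf_pos (Units.mk0 (n : ZMod p) hnz)
      have h5 : orderOf (Units.mk0 (n : ZMod p) hnz) = 0 := by exact_mod_cast h3
      omega
    · exact h3
  have hpnp : ∀ n : ℕ, 0 < n → n < p → T p n p = 0 := by
    intro n hn hnp
    have h1 := (hB T hT).2.2.2.1 p n hp0 (hc hn)
    rw [hpp n hn hnp] at h1
    linarith
  have hmnp : ∀ m n : ℕ, 0 < m → m < p → 0 < n → n < p → T m n p = 0 := by
    intro m n hm hmp hn hnp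
    have h1 := (hB T hT).2.2.2.2 m n p (hc hm) (hc hn) hp0
    rw [hT.symm n p m, hb0 n m hn hnp hm hmp, hb0 m n hm hmp hn hnp] at h1
    linarith
  have hppp : T p p p = 0 := (hB T hT).2.2.1 p hp0
  intro a b c ha hap hb hbp hc' hcp
  rcases Nat.lt_or_ge a p with h1 | h1
  · rcases Nat.lt_or_ge b p with h2 | h2
    · rcases Nat.lt_or_ge c p with h3 | h3
      · exact hV a b c ha h1 hb h2 hc' h3
      · have : c = p := by omega
        rw [this]
        exact hmnp a b ha h1 hb h2
    · have e2 : b = p := by omega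
      rw [e2, hT.symm]
      rcases Nat.lt_or_ge c p with h3 | h3
      · exact hb0 a c ha h1 hc' h3
      · have : c = p := by omega
        rw [this]
        exact hpnp a ha h1
  · have e1 : a = p := by omega
    rw [e1]
    rcases Nat.lt_or_ge b p with h2 | h2
    · rcases Nat.lt_or_ge c p with h3 | h3
      · exact hb0 b c hb h2 hc' h3
      · have : c = p := by omega
        rw [this]
        exact hpnp b hb h2
    · have e2 : b = p := by omega
      rw [e2]
      rcases Nat.lt_or_ge c p with h3 | h3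
      · exact hpp c hc' h3
      · have : c = p := by omega
        rw [this]
        exact hppp

end Pool.Agent.Helper87K9.PL
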