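import Pool.Agent.Helper87K9.PL.Defs

set_option autoImplicit false

namespace Pool.Agent.Helper87K9.PL

/-- a homomorphism from `(ℤ/l)^*` to `ℚ` is zero -/
theorem hom_zero {l : ℕ} (hl : l.Prime) (f : ℕ → ℚ)
    (h : ∀ R₁ R₂ : ℕ, 0 < R₁ → R₁ < l → 0 < R₂ → R₂ < l → f (R₁ * R₂ % l) = f R₁ + f R₂) :
    ∀ m, 0 < m → m < l → f m = 0 := by
  have : Fact l.Prime := ⟨hl⟩
  have hv : ∀ x : (ZMod l)ˣ, 0 < (x : ZMod l).val ∧ (x : ZMod l).val < l := by
    intro x
    refine ⟨Nat.pos_of_ne_zero fun h0 => x.ne_zero ((ZMod.val_eq_zero _).1 h0), ZMod.val_lt _⟩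
  let g : (ZMod l)ˣ →* Multiplicative ℚ := MonoidHom.mk' (fun x => Multiplicative.ofAdd
    (f (x : ZMod l).val)) (fun x y => by
      rw [← ofAdd_add, ← h _ _ (hv x).1 (hv x).2 (hv y).1 (hv y).2, Units.val_mul, ZMod.val_mul])
  intro m h0 h1
  have hm : (m : ZMod l) ≠ 0 := by
    intro hm
    rw [ZMod.natCast_eq_zero_iff] at hm
    exact absurd (Nat.le_of_dvd h0 hm) (by omega)
  have h2 : g (Units.mk0 (m : ZMod l) hm) ^ Fintype.card (ZMod l)ˣ = 1 := by
    rw [← map_pow, pow_card_eq_one, map_one]
  have h3 : (g (Units.mk0 (m : ZMod l) hm)) = Multiplicative.ofAdd (f m) := by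
    change Multiplicative.ofAdd (f ((m : ZMod l).val)) = _
    rw [ZMod.val_natCast, Nat.mod_eq_of_lt h1]
  rw [h3, ← ofAdd_nsmul] at h2
  have h4 : Fintype.card (ZMod l)ˣ • f m = 0 := by
    simpa using congrArg Multiplicative.toAdd h2
  rw [nsmul_eq_mul] at h4
  rcases mul_eq_zero.1 h4 with h5 | h5
  · exact absurd h5 (by exact_mod_cast Fintype.card_ne_zero)
  · exact h5

theorem tate : S_TATE := by
  intro p b hb ha hR
  have hb2 : ∀ m n n', 0 < m → 0 < n → 0 < n' → b m (n * n') = b m n + b m n' := by
    intro m n n' hm hn hn'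
    rw [ha m _ hm (Nat.mul_pos hn hn'), hb n n' m hn hn' hm, ha n m hn hm, ha n' m hn' hm]
    ring
  have hself : ∀ m, 0 < m → b m m = 0 := by
    intro m hm
    have := ha m m hm hm
    linarith
  have hone : ∀ n, 0 < n → b 1 n = 0 := by
    intro n hn
    have := hb 1 1 n one_pos one_pos hn
    rw [one_mul] at this
    linarith
  have key : ∀ N, N < p → ∀ m n, 0 < m → m ≤ N → 0 < n → n ≤ N → b m n = 0 := by
    intro N
    induction N with
    | zero => intro _ m n h1 h2; omega
    | succ N ih =>
      intro hN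
      have ih' := ih (by omega)
      -- it is enough to treat `b m (N + 1)`, `m ≤ N`
      have hmain : ∀ m, 0 < m → m ≤ N → b m (N + 1) = 0 := by
        by_cases hp : (N + 1).Prime
        · have h1 := hom_zero hp (fun m => b m (N + 1)) (by
            intro R₁ R₂ h1 h2 h3 h4
            have hq := Nat.div_add_mod (R₁ * R₂) (N + 1)
            have hr0 : 0 < R₁ * R₂ % (N + 1) := by
              apply Nat.pos_of_ne_zero
              intro h0
              have hd := Nat.dvd_of_mod_eq_zero h0
              rcases hp.dvd_mul.1 hd with h | h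
              · exact absurd (Nat.le_of_dvd h1 h) (by omega)
              · exact absurd (Nat.le_of_dvd h3 h) (by omega)
            have hr1 : R₁ * R₂ % (N + 1) < N + 1 := Nat.mod_lt _ (by omega)
            generalize hr : R₁ * R₂ % (N + 1) = R₃ at *
            generalize hS : R₁ * R₂ / (N + 1) = S at *
            have hSl : S < N + 1 := by
              by_contra hc
              have h5 : (N + 1) * (N + 1) ≤ (N + 1) * S := Nat.mul_le_mul_left _ (by omega)
              have h6 : R₁ * R₂ ≤ (N + 1) * (N + 1) := Nat.mul_le_mul (by omega) (by omega)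
              omega
            rcases Nat.eq_zero_or_pos S with hS0 | hS0
            · subst hS0
              rw [Nat.mul_zero, Nat.zero_add] at hq
              change b R₃ (N + 1) = b R₁ (N + 1) + b R₂ (N + 1)
              rw [hq, hb _ _ _ h1 h3 (by omega)]
            · have h5 := hR (N + 1) R₁ R₂ R₃ S hp hN h1 h2 h3 h4 hr0 hr1 hS0 hSl hq.symm
              have z : ∀ x y, 0 < x → x < N + 1 → 0 < y → y < N + 1 → b x y = 0 :=
                fun x y hx hx' hy hy' => ih' x y hx (by omega) hy (by omega)
              rw [z R₃ S hr0 hr1 hS0 hSl, z R₃ R₁ hr0 hr1 h1 h2, z R₃ R₂ hr0 hr1 h3 h4,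
                z R₁ S h1 h2 hS0 hSl, z R₁ R₁ h1 h2 h1 h2, z R₁ R₂ h1 h2 h3 h4,
                z R₂ S h3 h4 hS0 hSl, z R₂ R₁ h3 h4 h1 h2, z R₂ R₂ h3 h4 h3 h4] at h5
              change b R₃ (N + 1) = b R₁ (N + 1) + b R₂ (N + 1)
              linarith)
          intro m hm hm'
          exact h1 m hm (by omega)
        · intro m hm hm'
          by_cases h1 : N + 1 = 1
          · omega
          · obtain ⟨c, d, hc, hd, hcd⟩ : ∃ c d, c < N + 1 ∧ d < N + 1 ∧ c * d = N + 1 := by
              obtain ⟨c, hc1, hc2, hc3⟩ := (Nat.not_prime_iff_exists_dvd_lt (by omega)).1 hp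
              obtain ⟨d, hd⟩ := hc1
              refine ⟨c, d, hc3, ?_, hd.symm⟩
              rw [hd]
              have : 0 < d := by
                apply Nat.pos_of_ne_zero
                rintro rfl
                omega
              nlinarith
            have hc0 : 0 < c := Nat.pos_of_ne_zero (by rintro rfl; omega)
            have hd0 : 0 < d := Nat.pos_of_ne_zero (by rintro rfl; omega)
            rw [← hcd, hb2 m c d hm hc0 hd0, ih' m c hm hm' hc0 (by omega),
              ih' m d hm hm' hd0 (by omega), add_zero]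
      intro m n h1 h2 h3 h4
      rcases Nat.lt_or_ge m (N + 1) with h5 | h5
      · rcases Nat.lt_or_ge n (N + 1) with h6 | h6
        · exact ih' m n h1 (by omega) h3 (by omega)
        · obtain rfl : n = N + 1 := by omega
          exact hmain m h1 (by omega)
      · obtain rfl : m = N + 1 := by omega
        rcases Nat.lt_or_ge n (N + 1) with h6 | h6
        · rw [ha _ _ h1 h3, hmain n h3 (by omega), neg_zero]
        · obtain rfl : n = N + 1 := by omega
          exact hself _ h1
  intro m n h1 h2 h3 h4
  exact key (p - 1) (by omega) m n h1 (by omega) h3 (by omega)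

end Pool.Agent.Helper87K9.PL
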