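import Pool.Agent.Helper87K9.PL.Asm
import Pool.Agent.Helper87K9.PL.Bas
import Pool.Agent.Helper87K9.PL.Cyc
import Pool.Agent.Helper87K9.PL.Alt
import Pool.Agent.Helper87K9.PL.Rtwo
import Pool.Agent.Helper87K9.PL.Bz
import Pool.Agent.Helper87K9.PL.Step
import Pool.Agent.Helper87K9.PL.Tate
import Pool.Agent.Helper87K9.PL.Fin

set_option autoImplicit false

namespace Pool.Agent.Helper87K9.PL

open H39Gon

theorem all_sym (hfive : S_FIVE) (T : ℚ → ℚ → ℚ → ℚ) (hT : Sym T) (a b c : ℚ) (ha : a ≠ 0)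
    (hb : b ≠ 0) (hc : c ≠ 0) : T a b c = 0 := by
  have halt := alt bas cyc
  have hbz := bz bas halt (rtwo bas halt) hfive
  exact fin bas (step bas halt hbz tate) T hT a b c ha hb hc

theorem cl_val {F : Type} [Field F] (s : UV F) : cl ((s.toMul : Fˣ) : F) = s := by
  have h : ((s.toMul : Fˣ) : F) ≠ 0 := Units.ne_zero _
  rw [TC2.cl_of_ne h]
  apply Additive.toMul.injective
  ext
  rfl

/-- the weight 3 spanning statement for `ℚ` -/
theorem spanDual_rat (hfive : S_FIVE) : SpanDual ℚ 1 := by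
  intro Q hQ s v
  have hcm : ∀ x y : ℚ, x ≠ 0 → y ≠ 0 → cl (x * y) = cl x + cl y := fun x y hx hy =>
    TC2.cl_mul hx hy
  let q : ℚ → ℚ → ℚ → ℚ := fun a b c => Q ![cl a, cl b] (cl c)
  have u0 : ∀ x a b : UV ℚ, ![x, b] = Function.update ![a, b] 0 x := fun x a b => by
    funext i; fin_cases i <;> rfl
  have u1 : ∀ x a b : UV ℚ, ![a, x] = Function.update ![a, b] 1 x := fun x a b => by
    funext i; fin_cases i <;> rfl
  have q1 : ∀ a a' b c : ℚ, a ≠ 0 → a' ≠ 0 → q (a * a') b c = q a b c + q a' b c := by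
    intro a a' b c ha ha'
    simp only [q]
    rw [hcm a a' ha ha', u0 (cl a + cl a') (cl a) (cl b), Q.map_update_add, ← u0, ← u0,
      LinearMap.add_apply]
  have q2 : ∀ a b b' c : ℚ, b ≠ 0 → b' ≠ 0 → q a (b * b') c = q a b c + q a b' c := by
    intro a b b' c hb hb'
    simp only [q]
    rw [hcm b b' hb hb', u1 (cl b + cl b') (cl a) (cl b), Q.map_update_add, ← u1, ← u1,
      LinearMap.add_apply]
  have q3 : ∀ a b c c' : ℚ, c ≠ 0 → c' ≠ 0 → q a b (c * c') = q a b c + q a b c' := by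
    intro a b c c' hc hc'
    simp only [q]
    rw [hcm c c' hc hc', map_add]
  have hT : Sym (fun a b c => q a b c + q b a c) :=
    { mul₁ := fun a a' b c ha ha' hb hc => by
        rw [q1 a a' b c ha ha', q2 b a a' c ha ha']
        ring
      mul₃ := fun a b c c' ha hb hc hc' => by
        rw [q3 a b c c' hc hc', q3 b a c c' hc hc']
        ring
      symm := fun a b c => add_comm _ _
      sym := fun f hf hf1 => by
        have h := hQ f hf hf1
        have h2 : (fun _ : Fin (1 + 1) => cl f) = ![cl f, cl f] := by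
          funext i; fin_cases i <;> rfl
        rw [h2] at h
        simp only [q]
        rw [h, add_zero] }
  have h := all_sym hfive _ hT (s.toMul : ℚˣ) (s.toMul : ℚˣ) (v.toMul : ℚˣ) (Units.ne_zero _)
    (Units.ne_zero _) (Units.ne_zero _)
  simp only [q, cl_val] at h
  have h2 : (fun _ : Fin (1 + 1) => s) = ![s, s] := by
    funext i; fin_cases i <;> rfl
  rw [h2]
  linarith

end Pool.Agent.Helper87K9.PL
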